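import Pool.Agent.Lib.MP_f4f7c0_an.UShort

/-! The bounds for short extremals with explicit constants. -/

namespace Pool.Agent.Lib.MP_f4f7c0_an.K

open Set Filter Topology MeasureTheory

variable {h₀ : List Bool → ℝ}

/-- The bound `N` for the number of break points near given bracket values. -/
def BddN (N : ℕ) (h₀ : List Bool → ℝ) : Prop :=
  ∃ ε > 0, ∀ e : Ext, e.Near h₀ ε → e.GenAll → e.SI2 ε → e.Br.encard ≤ N

theorem BddN.mono {N N' : ℕ} (h : BddN N h₀) (hN : N ≤ N') : BddN N' h₀ := by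
  obtain ⟨ε, h1, h2⟩ := h
  exact ⟨ε, h1, fun e a b c => (h2 e a b c).trans (by exact_mod_cast hN)⟩

theorem BddN.of_swap {N : ℕ} (h : BddN N fun w => -h₀ (w.map not)) : BddN N h₀ := by
  obtain ⟨ε, h1, h2⟩ := h
  exact ⟨ε, h1, fun e a b c => Ext.swap_Br ▸ h2 e.swap a.swap b.swap c.swap⟩

theorem BddN.of_rev {N : ℕ} (h : BddN N fun w => (-1) ^ (w.length + 1) * h₀ w) : BddN N h₀ := by
  obtain ⟨ε, h1, h2⟩ := h
  exact ⟨ε, h1, fun e a b c => Ext.encard_rev ▸ h2 e.rev a.rev b.rev c.rev⟩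

open UCaseB in
theorem caseB (hg : Gen h₀) (hb : h₀ [false] < 0) : BddN ((3 + 1) * 4) h₀ := by
  have hfew : ∃ ε > 0, ∀ e : Ext, e.Near h₀ ε → (e.Cnt e.DT).encard ≤ 3 := by
    by_cases h1 : h₀ [true] = 0
    swap
    · have h0 : 0 < |h₀ [true]| := abs_pos.2 h1
      refine ⟨|h₀ [true]| / 2, by positivity, fun e he => cnt_empty fun s t ha hd => ?_⟩
      obtain ⟨r, ρ, r', b1, b2, b3, b4, b5, -⟩ := Ext.DT.zeros ha hd
      have := nb he [true] (by simp) (t := r) (by linarith [ha.pos]) (by linarith [ha.lt_δ])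
      have h2 : e.h [true] r = 0 := b5
      rw [h2, zero_sub, abs_neg] at this
      linarith
    by_cases h2 : h₀ [true, true] = 0
    swap
    · obtain ⟨ε, hε, h⟩ := no_DT h2
      exact ⟨ε, hε, fun e he => cnt_empty (h e he)⟩
    by_cases h3 : h₀ [true, true, true] = 0
    swap
    · exact few_three hb h3
    refine few_four hb h1 ?_
    obtain ⟨j, hj, h⟩ := hg.g1 true
    interval_cases j
    · exact absurd h1 h
    · exact absurd h2 h
    · exact absurd h3 h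
    · exact h
  obtain ⟨ε, hε, hfew⟩ := hfew
  refine ⟨min ε (-h₀ [false] / 2), lt_min hε (by linarith), fun e he hG _ => ?_⟩
  have hbn : ∀ τ, 0 ≤ τ → τ ≤ e.δ → e.b τ < 0 := fun τ x y => by
    linarith [(abs_le.1 (nb he [false] (by simp) x y)).2, min_le_right ε (-h₀ [false] / 2)]
  refine Ext.count hG.br_finite (n := 3) (k := 4) (hfew e (he.mono (min_le_left _ _))) ?_
  intro τ hτ
  have ty : ∀ s t, e.Arc s t → e.IsX s t ∨ e.IsS s t := by
    intro s t ha
    rcases ha.type hG with h | h | h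
    · exact Or.inl h
    · exfalso
      refine hG.not_flat_Y ha.pos.le ha.lt ha.lt_δ.le h fun u hu => ?_
      have x1 := Ext.cvx ha.pos ha.lt_δ (Ext.Br.φ0 ha.left) (Ext.Br.φ0 ha.right)
        (fun v hv => hbn v (by linarith [ha.pos, hv.1]) (by linarith [ha.lt_δ, hv.2])) u
        (Ioo_subset_Icc_self hu)
      have x2 := (Ext.swap_isX.2 h).φ_nonneg ha.pos.le ha.lt ha.lt_δ.le u (Ioo_subset_Icc_self hu)
      rw [Ext.swap_φ] at x2
      linarith
    · exact Or.inr h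
  have nS : ∀ s t u, e.Arc s t → e.Arc t u → e.IsS s t → e.IsX t u := by
    intro s t u h1 h2 h3
    refine (ty t u h2).resolve_right fun h4 => ?_
    exact (hbn t h2.pos.le h1.lt_δ.le).ne (h1.junction h2 h3 h4).2
  have nX : ∀ s t u, e.Arc s t → e.Arc t u → e.IsX s t → e.IsS t u := fun s t u h1 h2 h3 =>
    (ty t u h2).resolve_left fun h4 => h1.not_XX h2 h3 h4
  obtain ⟨a0, -⟩ := hτ 0 (by norm_num)
  obtain ⟨a1, n1⟩ := hτ 1 (by norm_num)
  obtain ⟨a2, n2⟩ := hτ 2 (by norm_num)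
  obtain ⟨a3, -⟩ := hτ 3 (by norm_num)
  rcases ty _ _ a0 with h | h
  · have x1 := nX _ _ _ a0 a1 h
    have x2 := nS _ _ _ a1 a2 x1
    exact n2 ⟨_, a2, a1.dt a2 a3 x1 x2 (nX _ _ _ a2 a3 x2)⟩
  · have x1 := nS _ _ _ a0 a1 h
    exact n1 ⟨_, a1, a0.dt a1 a2 h x1 (nX _ _ _ a1 a2 x1)⟩

open Ext UCaseE

theorem caseA (hb : 0 < h₀ [false]) : BddN 18 h₀ := by
  refine ⟨min (h₀ [false] / 3) 1, by positivity, fun e hN _ hS => ?_⟩
  have e1 := min_le_left (h₀ [false] / 3) 1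
  have e2 := min_le_right (h₀ [false] / 3) 1
  have e0 : 0 < min (h₀ [false] / 3) 1 := by positivity
  generalize min (h₀ [false] / 3) 1 = ε at *
  by_contra hn
  obtain ⟨τ, h1, h2⟩ := exists_seq hn
  have p0 := (h1 0 (by omega)).1.1
  have p9 := (h1 18 le_rfl).1.2
  refine hS.1.sa e0.le (v := fun i => τ (2 * i)) (c := h₀ [false] - ε) p0.le p9.le
    (fun i hi => ?_) (fun t ht => (bd hN [false] (by simp) (p0.le.trans ht.1)
      (ht.2.trans p9.le)).1) ?_
  · have a1 := h2 (2 * i) (by omega)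
    have a2 := h2 (2 * i + 1) (by omega)
    have a3 := (h1 (2 * i + 1) (by omega)).2 _ _ a1 a2
    exact ⟨a1.trans a2, a3.1, a3.2.1⟩
  · have a1 : τ (2 * 9) - τ (2 * 0) ≤ 1 := by
      have := hN.1
      show τ 18 - τ 0 ≤ 1
      linarith
    have a2 := mul_le_of_le_one_right e0.le a1
    linarith

theorem caseE1 (hg : Gen h₀) (hs : h₀ [true, false] = h₀ [false, true]) (ha : h₀ [true] = 0)
    (hb : h₀ [false] = 0) {θ₁ θ₂ : ℝ} (h1 : 0 < θ₁) (h2 : 0 < θ₂)
    (h3 : 0 < θ₁ * h₀ [true, true] + θ₂ * h₀ [true, false])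
    (h4 : 0 < θ₁ * h₀ [true, false] + θ₂ * h₀ [false, false]) :
    BddN ((3 + 3 + 3 + 3 + 3 + 1) * 4) h₀ := by
  obtain ⟨ε₁, p1, d1⟩ := few_DT hg ha hb
  obtain ⟨ε₂, p2, d2⟩ := few_DT (gen_swap hg hs) (by simpa using hb) (by simpa using ha)
  obtain ⟨c, c0, c1, c2⟩ : ∃ c : ℝ, 0 < c ∧ 2 * c ≤ θ₁ * h₀ [true, true] + θ₂ * h₀ [true, false] ∧
      2 * c ≤ θ₁ * h₀ [true, false] + θ₂ * h₀ [false, false] := by
    obtain ⟨c, c0, c1, c2⟩ : ∃ c : ℝ, 0 < c ∧ c ≤ _ ∧ c ≤ _ :=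
      ⟨_, lt_min h3 h4, min_le_left _ _, min_le_right _ _⟩
    exact ⟨c / 2, by positivity, by linarith, by linarith⟩
  obtain ⟨ε, e0, e1, e2, e3⟩ : ∃ ε : ℝ, 0 < ε ∧ ε ≤ ε₁ ∧ ε ≤ ε₂ ∧ θ₁ * ε + θ₂ * ε ≤ c / 2 := by
    refine ⟨min (min ε₁ ε₂) (c / 2 / (θ₁ + θ₂)), by positivity,
      (min_le_left _ _).trans (min_le_left _ _), (min_le_left _ _).trans (min_le_right _ _), ?_⟩
    have := min_le_right (min ε₁ ε₂) (c / 2 / (θ₁ + θ₂))
    rw [le_div_iff₀ (by positivity)] at this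
    linarith
  have t1 := mul_pos h1 e0
  have t2 := mul_pos h2 e0
  refine ⟨ε, e0, fun e hN hG hS => count hG.br_finite (n := 3 + 3 + 3 + 3 + 3) (k := 4)
    (B := e.Cnt (e.BadX ε) ∪ e.swap.Cnt (e.swap.BadX ε) ∪ e.Cnt e.DT ∪ e.swap.Cnt e.swap.DT ∪
      e.Cnt fun s t => Sg e θ₁ θ₂ s ≤ 0 ∧ 0 ≤ Sg e θ₁ θ₂ t) ?_ ?_⟩
  all_goals
    have hX : ∀ τ, 0 ≤ τ → τ ≤ e.δ → c ≤ θ₁ * e.α τ + θ₂ * e.β τ ∧
        θ₁ * e.α τ + θ₂ * e.β τ ≤ θ₁ * h₀ [true, true] + θ₂ * h₀ [true, false] + c := by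
      intro τ a0 a1
      have b1 := bd hN [true, true] (by simp) a0 a1
      have b2 := bd hN [true, false] (by simp) a0 a1
      have f1 := mul_le_mul_of_nonneg_left b1.1 h1.le
      have f2 := mul_le_mul_of_nonneg_left b1.2 h1.le
      have f3 := mul_le_mul_of_nonneg_left b2.1 h2.le
      have f4 := mul_le_mul_of_nonneg_left b2.2 h2.le
      exact ⟨by linarith, by linarith⟩
    have hY : ∀ τ, 0 ≤ τ → τ ≤ e.δ → c ≤ θ₁ * e.β τ + θ₂ * e.γ τ ∧
        θ₁ * e.β τ + θ₂ * e.γ τ ≤ θ₁ * h₀ [true, false] + θ₂ * h₀ [false, false] + c := by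
      intro τ a0 a1
      have b1 := bd hN [true, false] (by simp) a0 a1
      have b2 := bd hN [false, false] (by simp) a0 a1
      have f1 := mul_le_mul_of_nonneg_left b1.1 h1.le
      have f2 := mul_le_mul_of_nonneg_left b1.2 h1.le
      have f3 := mul_le_mul_of_nonneg_left b2.1 h2.le
      have f4 := mul_le_mul_of_nonneg_left b2.2 h2.le
      exact ⟨by linarith, by linarith⟩
    have mo : ∀ s t, 0 ≤ s → s < t → t ≤ e.δ → Sg e θ₁ θ₂ s < Sg e θ₁ θ₂ t := by
      intro s t a0 a1 a2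
      have := mono' (((dSg e θ₁ θ₂).mono a0 a1.le a2).sub (DD.id.cmul c)) a0 a1.le a2
        (fun τ hτ => by linarith [(hX τ (a0.trans hτ.1.le) (hτ.2.le.trans a2)).1])
        fun τ hτ => by linarith [(hY τ (a0.trans hτ.1.le) (hτ.2.le.trans a2)).1]
      have := mul_pos c0 (sub_pos.2 a1)
      linarith
  · refine enc (enc (enc (enc (few_badX hS.1) (few_badX hS.2)) (d1 e (hN.mono e1)))
      (d2 _ (hN.swap.mono e2))) (few fun s t a1 a2 => ?_)
    have b0 := a1 0 (by omega)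
    have b1 := a1 1 (by omega)
    have b2 := a1 2 (by omega)
    have := mo (t 0) (s 2) (b0.1.pos.trans b0.1.lt).le
      ((a2 0 (by omega)).trans_lt (b1.1.lt.trans_le (a2 1 (by omega))))
      (b2.1.lt.trans b2.1.lt_δ).le
    linarith [b0.2.2, b2.2.1]
  · intro τ hτ
    have ar : ∀ i < 4, e.Arc (τ i) (τ (i + 1)) := fun i hi => (hτ i hi).1
    have nb : ∀ i < 4, ¬e.BadX ε (τ i) (τ (i + 1)) ∧ ¬e.swap.BadX ε (τ i) (τ (i + 1)) ∧
        ¬e.DT (τ i) (τ (i + 1)) ∧ ¬e.swap.DT (τ i) (τ (i + 1)) ∧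
        (Sg e θ₁ θ₂ (τ i) ≤ 0 → Sg e θ₁ θ₂ (τ (i + 1)) < 0) := fun i hi => by
      have := (hτ i hi).2
      simp only [mem_union, not_or] at this
      exact ⟨fun h => this.1.1.1.1 ⟨_, ar i hi, h⟩, fun h => this.1.1.1.2 ⟨_, swap_arc.2 (ar i hi), h⟩,
        fun h => this.1.1.2 ⟨_, ar i hi, h⟩, fun h => this.1.2 ⟨_, swap_arc.2 (ar i hi), h⟩,
        fun h => not_le.1 fun h' => this.2 ⟨_, ar i hi, h, h'⟩⟩
    have st : ∀ i < 4, Sg e θ₁ θ₂ (τ i) < Sg e θ₁ θ₂ (τ (i + 1)) := fun i hi =>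
      mo _ _ (ar i hi).pos.le (ar i hi).lt (ar i hi).lt_δ.le
    have zj : ∀ t, e.a t = 0 ∧ e.b t = 0 → Sg e θ₁ θ₂ t = 0 := fun t h => by simp [Sg, h.1, h.2]
    rcases lt_or_ge 0 (Sg e θ₁ θ₂ (τ 0)) with s0 | s0
    · have sp : ∀ i < 4, 0 < Sg e θ₁ θ₂ (τ i) := by
        intro i hi
        induction i with
        | zero => exact s0
        | succ i ih => exact (ih (by omega)).trans (st i (by omega))
      refine run4 hG ar (fun i hi x => ?_) (fun i hi h => (sp (i + 1) (by omega)).ne' (zj _ h))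
        fun i hi => (nb i hi).2.2.2.1
      have a := ar i hi
      have b1 := (tay a x θ₁ θ₂ fun t ht =>
        hX t (a.pos.trans ht.1).le (ht.2.trans a.lt_δ).le).1
      have b2 := mul_le_mul_of_nonneg_left (good x (nb i hi).1) h2.le
      have b3 := a.W_sign x
      have b4 := mul_nonpos_of_nonneg_of_nonpos h1.le
        (show e.W (τ (i + 1)) - e.W (τ i) ≤ 0 by linarith [b3.1, b3.2])
      have b5 := mul_pos (sp i hi) (sub_pos.2 a.lt)
      have b6 := mul_le_mul_of_nonneg_right (show θ₂ * ε ≤ c / 2 by linarith) (sq_pos' a).le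
      linarith
    · have sn : ∀ i < 4, Sg e θ₁ θ₂ (τ (i + 1)) < 0 := by
        intro i hi
        induction i with
        | zero => exact (nb 0 hi).2.2.2.2 s0
        | succ i ih => exact (nb (i + 1) hi).2.2.2.2 (ih (by omega)).le
      refine run4 hG.swap (fun i hi => swap_arc.2 (ar i hi)) (fun i hi x => ?_)
        (fun i hi h => (sn i (by omega)).ne (zj _ ⟨by simpa using h.2, by simpa using h.1⟩))
        fun i hi => by rw [swap_swap]; exact (nb i hi).2.2.1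
      have a := swap_arc.2 (ar i hi)
      have b1 := (tay a x θ₂ θ₁
        (l := -(θ₁ * h₀ [true, false] + θ₂ * h₀ [false, false] + c)) (r := -c) fun t ht => by
          have := hY t (a.pos.trans ht.1).le (ht.2.trans a.lt_δ).le
          rw [swap_α, swap_β]
          exact ⟨by linarith [this.2], by linarith [this.1]⟩).2
      have b2 := mul_le_mul_of_nonneg_left (good x (nb i hi).2.1) h1.le
      have b3 := a.W_sign x
      have b4 := mul_nonpos_of_nonneg_of_nonpos h2.le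
        (show e.swap.W (τ (i + 1)) - e.swap.W (τ i) ≤ 0 by linarith [b3.1, b3.2])
      have b5 := mul_neg_of_neg_of_pos (sn i hi) (sub_pos.2 a.lt)
      have b6 := mul_le_mul_of_nonneg_right (show θ₁ * ε ≤ c / 2 by linarith) (sq_pos' a).le
      rw [swap_Sg] at b1
      linarith

theorem caseE2 (hg : Gen h₀) (ha : h₀ [true] = 0) (hb : h₀ [false] = 0)
    (hα : h₀ [true, true] < 0) (hβ : h₀ [true, false] = 0) (hγ : 0 < h₀ [false, false]) :
    BddN ((3 + 1) * 6) h₀ := by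
  obtain ⟨ε₁, p1, hj⟩ := junctions hg ha hb
  obtain ⟨ε, e0, e1, e2, e3⟩ : ∃ ε : ℝ, 0 < ε ∧ ε ≤ ε₁ ∧ h₀ [true, true] ≤ -10 * ε ∧
      10 * ε ≤ h₀ [false, false] := by
    have a1 := min_le_left (-h₀ [true, true] / 10) (h₀ [false, false] / 10)
    have a2 := min_le_right (-h₀ [true, true] / 10) (h₀ [false, false] / 10)
    have a3 := min_le_right ε₁ (min (-h₀ [true, true] / 10) (h₀ [false, false] / 10))
    exact ⟨min ε₁ (min (-h₀ [true, true] / 10) (h₀ [false, false] / 10)),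
      lt_min p1 (lt_min (by linarith) (by linarith)), min_le_left _ _, by linarith, by linarith⟩
  refine ⟨ε, e0, fun e hN hG hS => count hG.br_finite (n := 3) (k := 6) (few_badX hS.1)
    fun τ hτ => ?_⟩
  have ar : ∀ i < 6, e.Arc (τ i) (τ (i + 1)) := fun i hi => (hτ i hi).1
  have nb : ∀ i < 6, ¬e.BadX ε (τ i) (τ (i + 1)) := fun i hi h => (hτ i hi).2 ⟨_, ar i hi, h⟩
  have lg : ∀ i < 6, e.IsS (τ i) (τ (i + 1)) → 0 ≤ e.a (τ i) ∧ e.b (τ i) ≤ 0 := fun i hi h =>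
    legendre hG hS e0.le (ar i hi).pos.le (ar i hi).lt (ar i hi).lt_δ.le h _
      ⟨le_rfl, (ar i hi).lt.le⟩
  have XY : ∀ i < 5, e.IsX (τ i) (τ (i + 1)) → e.IsY (τ (i + 1)) (τ (i + 1 + 1)) := by
    intro i hi h
    rcases (ar (i + 1) (by omega)).type hG with x | x | x
    · exact ((ar i (by omega)).not_XX (ar (i + 1) (by omega)) h x).elim
    · exact x
    · exact absurd (lg (i + 1) (by omega) x).1
        (a_neg hN (by linarith) (ar i (by omega)) h).not_ge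
  have YX : ∀ i < 5, e.IsY (τ i) (τ (i + 1)) → e.IsX (τ (i + 1)) (τ (i + 1 + 1)) := by
    intro i hi h
    rcases (ar (i + 1) (by omega)).type hG with x | x | x
    · exact x
    · exact ((ar i (by omega)).not_YY (ar (i + 1) (by omega)) h x).elim
    · have a1 := a_neg hN.swap (by
        simp only [List.map_cons, List.map_nil, Bool.not_true]; linarith)
        (swap_arc.2 (ar i (by omega))) (swap_isX.2 h)
      rw [swap_a] at a1
      linarith [(lg (i + 1) (by omega) x).2]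
  have nX : ∀ i < 4, ¬e.IsX (τ i) (τ (i + 1)) := fun i hi h =>
    not_XYX hN e0 e2 hβ e3 (ar i (by omega)) (ar (i + 1) (by omega)) (ar (i + 1 + 1) (by omega)) h
      (XY i (by omega) h) (YX (i + 1) (by omega) (XY i (by omega) h)) (nb (i + 1 + 1) (by omega))
  have sS : ∀ i < 3, e.IsS (τ i) (τ (i + 1)) := fun i hi =>
    (((ar i (by omega)).type hG).resolve_left (nX i (by omega))).resolve_left fun h =>
      nX (i + 1) (by omega) (YX i (by omega) h)
  exact not_SSS hj (hN.mono e1) (ar 0 (by omega)) (ar 1 (by omega)) (ar 2 (by omega))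
    (sS 0 (by omega)) (sS 1 (by omega)) (sS 2 (by omega))

theorem caseE3 (hg : Gen h₀) (ha : h₀ [true] = 0) (hb : h₀ [false] = 0) {P : ℝ}
    (hP : P ∈ Ioo (0 : ℝ) 1) (h1 : P * h₀ [true, true] + (1 - P) * h₀ [true, false] = 0)
    (h2 : P * h₀ [true, false] + (1 - P) * h₀ [false, false] = 0) :
    BddN ((3 + 3 + 1) * 5) h₀ := by
  have P0 := hP.1
  have P1 := sub_pos.2 hP.2
  have hα : h₀ [true, true] ≠ 0 := fun h => hg.g3 true ha hb h (by
    rw [h, mul_zero, zero_add] at h1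
    exact (mul_eq_zero.1 h1).resolve_left P1.ne')
  have hγ : h₀ [false, false] ≠ 0 := fun h => hg.g3 false ha hb h (by
    rw [h, mul_zero, add_zero] at h2
    exact (mul_eq_zero.1 h2).resolve_left P0.ne')
  obtain ⟨ε₁, p1, hj⟩ := junctions hg ha hb
  obtain ⟨ε₂, p2, d2⟩ := no_DT hα
  obtain ⟨ε₃, p3, d3⟩ := no_DT (h₀ := fun w => -h₀ (w.map not)) (by simpa using hγ)
  have q1 := mul_pos P0 (abs_pos.2 hα)
  have q2 := mul_pos P1 (abs_pos.2 hγ)
  obtain ⟨ε, e0, e1, e2, e3, e4, e5⟩ : ∃ ε : ℝ, 0 < ε ∧ ε ≤ ε₁ ∧ ε ≤ ε₂ ∧ ε ≤ ε₃ ∧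
      12 * ε ≤ P * |h₀ [true, true]| ∧ 12 * ε ≤ (1 - P) * |h₀ [false, false]| := by
    have a1 := min_le_left (P * |h₀ [true, true]| / 12) ((1 - P) * |h₀ [false, false]| / 12)
    have a2 := min_le_right (P * |h₀ [true, true]| / 12) ((1 - P) * |h₀ [false, false]| / 12)
    have a3 := min_le_right (min ε₁ (min ε₂ ε₃))
      (min (P * |h₀ [true, true]| / 12) ((1 - P) * |h₀ [false, false]| / 12))
    exact ⟨min (min ε₁ (min ε₂ ε₃))
      (min (P * |h₀ [true, true]| / 12) ((1 - P) * |h₀ [false, false]| / 12)), by positivity,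
      (min_le_left _ _).trans (min_le_left _ _),
      (min_le_left _ _).trans ((min_le_right _ _).trans (min_le_left _ _)),
      (min_le_left _ _).trans ((min_le_right _ _).trans (min_le_right _ _)),
      by linarith, by linarith⟩
  refine ⟨ε, e0, fun e hN hG hS => count hG.br_finite (n := 3 + 3) (k := 5)
    (enc (few_badX hS.1) (few_badX hS.2)) fun τ hτ => ?_⟩
  have ar : ∀ i < 5, e.Arc (τ i) (τ (i + 1)) := fun i hi => (hτ i hi).1
  have sX : ∀ i < 5, e.IsX (τ i) (τ (i + 1)) →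
      Sg e P (1 - P) (τ i) < 0 ∧ Sg e P (1 - P) (τ (i + 1)) < 0 := fun i hi x =>
    sg_neg hN e0 P0 P1 (by ring) h1 e4 (ar i hi) x fun h => (hτ i hi).2 (Or.inl ⟨_, ar i hi, h⟩)
  have sY : ∀ i < 5, e.IsY (τ i) (τ (i + 1)) →
      0 < Sg e P (1 - P) (τ i) ∧ 0 < Sg e P (1 - P) (τ (i + 1)) := fun i hi x => by
    have hN' : e.swap.Near (fun w => if w = [true, false] then -h₀ [true, false] else
        -h₀ (w.map not)) ε := ⟨hN.1, fun w hw t ht => by
      beta_reduce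
      split_ifs with h
      · have := hN.2 [true, false] (by simp) t ht
        rw [h, show e.swap.h [true, false] t = -e.β t from swap_β t, ← abs_neg]
        convert this using 2
        ring
      · exact hN.swap.2 w hw t ht⟩
    have := sg_neg hN' e0 P1 P0 (by ring) (by simp; linarith) (by simpa using e5)
      (swap_arc.2 (ar i hi)) (swap_isX.2 x)
      fun h => (hτ i hi).2 (Or.inr ⟨_, swap_arc.2 (ar i hi), h⟩)
    rw [swap_Sg, swap_Sg] at this
    exact ⟨by linarith [this.1], by linarith [this.2]⟩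
  have nx : ∀ i < 4, (e.IsX (τ i) (τ (i + 1)) ∨ e.IsY (τ i) (τ (i + 1))) →
      (e.IsX (τ (i + 1)) (τ (i + 1 + 1)) ∨ e.IsY (τ (i + 1)) (τ (i + 1 + 1))) → False := by
    rintro i hi (x | x) (y | y)
    · exact (ar i (by omega)).not_XX (ar (i + 1) (by omega)) x y
    · linarith [(sX i (by omega) x).2, (sY (i + 1) (by omega) y).1]
    · linarith [(sY i (by omega) x).2, (sX (i + 1) (by omega) y).1]
    · exact (ar i (by omega)).not_YY (ar (i + 1) (by omega)) x y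
  have ty : ∀ i < 5, (e.IsX (τ i) (τ (i + 1)) ∨ e.IsY (τ i) (τ (i + 1))) ∨
      e.IsS (τ i) (τ (i + 1)) := fun i hi => or_assoc.2 ((ar i hi).type hG)
  have sS : ∀ i < 3, e.IsS (τ (i + 1)) (τ (i + 1 + 1)) := fun i hi =>
    (ty (i + 1) (by omega)).resolve_left fun x => by
      have s1 := (ty i (by omega)).resolve_left fun y => nx i (by omega) y x
      have s2 := (ty (i + 1 + 1) (by omega)).resolve_left (nx (i + 1) (by omega) x)
      have a0 := ar i (by omega)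
      have a1 := ar (i + 1) (by omega)
      have a2 := ar (i + 1 + 1) (by omega)
      rcases x with x | x
      · exact d2 e (hN.mono e2) _ _ a1 (a0.dt a1 a2 s1 x s2)
      · exact d3 _ (hN.swap.mono e3) _ _ (swap_arc.2 a1) ((swap_arc.2 a0).dt (swap_arc.2 a1)
          (swap_arc.2 a2) (swap_isS.2 s1) (swap_isX.2 x) (swap_isS.2 s2))
  exact not_SSS hj (hN.mono e1) (ar 1 (by omega)) (ar 2 (by omega)) (ar 3 (by omega))
    (sS 0 (by omega)) (sS 1 (by omega)) (sS 2 (by omega))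

theorem bdd18 (hg : Gen h₀) (hs : h₀ [true, false] = h₀ [false, true])
    (h : h₀ [true] ≠ 0 ∨ h₀ [false] ≠ 0) : BddN 18 h₀ := by
  have key : ∀ h : List Bool → ℝ, Gen h → h [false] ≠ 0 → BddN 18 h := fun h g n =>
    (lt_or_gt_of_ne n).elim (fun k => (caseB g k).mono (by norm_num)) caseA
  rcases h with ha | hb
  · exact BddN.of_swap (key _ (gen_swap hg hs) (by simpa using ha))
  · exact key _ hg hb

theorem bdd64 (hg : Gen h₀) (hs : h₀ [true, false] = h₀ [false, true]) : BddN 64 h₀ := by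
  by_cases hb : h₀ [false] = 0
  swap
  · exact (bdd18 hg hs (Or.inr hb)).mono (by norm_num)
  by_cases ha : h₀ [true] = 0
  swap
  · exact (bdd18 hg hs (Or.inl ha)).mono (by norm_num)
  rcases tricho (hg.g3 true ha hb) (hg.g3 false ha hb) with ⟨θ₁, θ₂, t1, t2, h | h⟩ | h | ⟨P, hP, h⟩
  · exact caseE1 hg hs ha hb t1 t2 h.1 h.2
  · refine BddN.of_rev
      (caseE1 (gen_rev hg) (by simp [hs]) (by simp [ha]) (by simp [hb]) t1 t2 ?_ ?_)
    · norm_num
      linarith [h.1]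
    · norm_num
      linarith [h.2]
  · rcases mul_neg_iff.1 h.2 with k | k
    · refine (BddN.of_rev
        (caseE2 (gen_rev hg) (by simp [ha]) (by simp [hb]) ?_ (by simp [h.1]) ?_)).mono
        (by norm_num)
      · norm_num
        exact k.1
      · norm_num
        exact k.2
    · exact (caseE2 hg ha hb k.1 h.1 k.2).mono (by norm_num)
  · exact (caseE3 hg ha hb hP h.1 h.2).mono (by norm_num)

theorem shortExt {φ₀ : ℝ} {N : ℕ} (hN1 : 1 ≤ N)
    (hg : φ₀ = 0 → h₀ [] = 0 → Gen h₀) (hB : φ₀ = 0 → h₀ [] = 0 → BddN N h₀) :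
    ∃ ε > 0, ∀ e : Ext, e.Near h₀ ε →
      (∀ t ∈ Icc 0 e.δ, |e.φ t - φ₀| ≤ ε) → (e.Flat ∨ e.SI2 ε) → e.Br.encard ≤ N := by
  by_cases h1 : φ₀ = 0
  swap
  · have p := abs_pos.2 h1
    refine ⟨|φ₀| / 2, by positivity, fun e _ hφ _ => ?_⟩
    have : e.Br = ∅ := eq_empty_of_forall_notMem fun t ht => by
      have a := hφ t ⟨ht.1.1.le, ht.1.2.le⟩
      rw [Br.φ0 ht, zero_sub, abs_neg] at a
      linarith
    simp [this]
  by_cases h2 : h₀ [] = 0
  swap
  · have p := abs_pos.2 h2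
    refine ⟨|h₀ []| / 2, by positivity, fun e hN _ _ => ?_⟩
    have key : ∀ s ∈ e.Br, ∀ t ∈ e.Br, ¬s < t := fun s hs t ht hst => by
      obtain ⟨c, hc, hc'⟩ := exists_hasDerivAt_eq_zero hst
        (e.contφ.mono (Icc_subset_Icc hs.1.1.le ht.1.2.le)) ((Br.φ0 hs).trans (Br.φ0 ht).symm)
        fun τ hτ => e.hasDeriv ⟨hs.1.1.trans hτ.1, hτ.2.trans ht.1.2⟩
      have a := hN.2 [] (by simp) c ⟨(hs.1.1.trans hc.1).le, (hc.2.trans ht.1.2).le⟩
      rw [show e.h [] c = 0 from hc', zero_sub, abs_neg] at a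
      linarith
    exact (encard_le_one_iff.2 fun s t hs ht =>
      le_antisymm (not_lt.1 (key t ht s hs)) (not_lt.1 (key s hs t ht))).trans
      (by exact_mod_cast hN1)
  obtain ⟨ε₁, p1, g1⟩ := exists_genAll (hg h1 h2)
  obtain ⟨ε₂, p2, g2⟩ := flat_bdd (hg h1 h2)
  obtain ⟨ε₃, p3, g3⟩ := hB h1 h2
  have e1 : min ε₁ (min ε₂ ε₃) ≤ ε₁ := min_le_left _ _
  have e2 : min ε₁ (min ε₂ ε₃) ≤ ε₂ := (min_le_right _ _).trans (min_le_left _ _)
  have e3 : min ε₁ (min ε₂ ε₃) ≤ ε₃ := (min_le_right _ _).trans (min_le_right _ _)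
  refine ⟨min ε₁ (min ε₂ ε₃), by positivity, fun e hN _ h => ?_⟩
  rcases h with h | h
  · exact (g2 e (hN.mono e2) h).trans (by exact_mod_cast hN1)
  · exact g3 e (hN.mono e3) (g1 e (hN.mono e1)) (h.mono e3)

end Pool.Agent.Lib.MP_f4f7c0_an.K
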