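import Pool.Agent.Lib.MP_f4f7c0_an.UGen

/-! The good pairs contain an open dense set of the Whitney topology. -/

namespace Pool.Agent.Lib.MP_f4f7c0_an.K

open Set Filter Topology Whit UGen
open scoped Manifold ContDiff

variable {M : Type*} [TopologicalSpace M] [ChartedSpace E3 M] [IsManifold (𝓡 3) ∞ M]

/-- Fields on the model space lift near `K` with support in `S`, and conversely. -/
structure Lift (c : M) (K S : Set M) : Prop where
  cK : IsCompact K
  src : K ⊆ (chartAt E3 c).source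
  cS : IsCompact S
  up : ∀ A : E3 → E3, ContDiff ℝ ∞ A → ∃ L : VF M, (∀ x ∉ S, L x = 0) ∧
    ∀ x ∈ K, chartRep c L =ᶠ[𝓝 (extChartAt (𝓡 3) c x)] A
  down : ∀ X : VF M, ∃ A, ContDiff ℝ ∞ A ∧
    ∀ x ∈ K, chartRep c X =ᶠ[𝓝 (extChartAt (𝓡 3) c x)] A

theorem lift_empty (c : M) : Lift c ∅ ∅ :=
  ⟨isCompact_empty, empty_subset _, isCompact_empty,
    fun _ _ => ⟨0, fun _ _ => rfl, fun _ h => h.elim⟩,
    fun _ => ⟨0, contDiff_const, fun _ h => h.elim⟩⟩

theorem lift_bump [T2Space M] {c : M} (χ : SmoothBumpFunction (𝓡 3) c) {K : Set M}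
    (hc : IsClosed K) (hK : ∀ x ∈ K, χ =ᶠ[𝓝 x] 1) : Lift c K (tsupport χ) := by
  have h0 : K ⊆ Function.support χ := fun x hx => by
    simp [Function.mem_support, (hK x hx).eq_of_nhds]
  have hs : K ⊆ (chartAt E3 c).source := h0.trans χ.support_subset_source
  refine ⟨χ.hasCompactSupport.isCompact.of_isClosed_subset hc (h0.trans subset_closure), hs,
    χ.hasCompactSupport, fun A hA => ?_,
    fun X => ⟨fun y => χ.toContDiffBump y • chartRep c X y, ?_, fun x hx => ?_⟩⟩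
  · let e := trivializationAt E3 (TangentSpace (𝓡 3) : M → Type) c
    have h1 : ContMDiffOn (𝓡 3) ((𝓡 3).prod 𝓘(ℝ, E3)) ∞ (fun x => Bundle.TotalSpace.mk' E3 x
        (e.symm x (A (extChartAt (𝓡 3) c x)))) e.baseSet :=
      e.contMDiffOn_section_baseSet_iff.2 ((hA.contMDiff.comp_contMDiffOn
        contMDiffOn_extChartAt).congr fun x hx => congrArg Prod.snd (e.apply_mk_symm hx _))
    refine ⟨⟨_, χ.contMDiff.contMDiffOn.smul_section_of_tsupport e.open_baseSet
      χ.tsupport_subset_chartAt_source h1⟩, fun x hx => ?_, fun x hx => ?_⟩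
    · change χ x • e.symm x (A (extChartAt (𝓡 3) c x)) = _
      rw [image_eq_zero_of_notMem_tsupport hx, zero_smul]
    · refine eventually_chart (hs hx) ?_
      filter_upwards [hK x hx, (chartAt E3 c).open_source.mem_nhds (hs hx)] with z h2 hz
      rw [rep_eq hz]
      change (e ⟨z, χ z • e.symm z (A (extChartAt (𝓡 3) c z))⟩).2 = _
      rw [h2, Pi.one_apply, one_smul]
      exact congrArg Prod.snd (e.apply_mk_symm hz _)
  · refine contDiff_iff_contDiffAt.2 fun y => ?_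
    by_cases hy : y ∈ tsupport χ.toContDiffBump
    · rw [ContDiffBump.tsupport_eq] at hy
      exact χ.toContDiffBump.contDiff.contDiffAt.smul
        (contDiffAt_rep' (χ.closedBall_subset ⟨hy, mem_range_self y⟩) X)
    · refine (contDiffAt_const (c := 0)).congr_of_eventuallyEq ?_
      filter_upwards [notMem_tsupport_iff_eventuallyEq.1 hy] with z hz
      rw [hz, Pi.zero_apply, zero_smul]
  · refine eventually_chart (hs hx) ?_
    filter_upwards [hK x hx, (chartAt E3 c).open_source.mem_nhds (hs hx)] with z h2 hz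
    have h3 : χ.toContDiffBump (extChartAt (𝓡 3) c z) = 1 := (χ.eqOn_source hz).symm.trans h2
    rw [h3, one_smul]

theorem exists_cover [T2Space M] [SecondCountableTopology M] (x₀ : M) :
    ∃ (c : ℕ → M) (K S : ℕ → Set M), (∀ n, Lift (c n) (K n) (S n)) ∧ LocallyFinite K ∧
      LocallyFinite S ∧ ∀ x, ∃ n, x ∈ K n := by
  have : LocallyCompactSpace M := Manifold.locallyCompact_of_finiteDimensional (𝓡 3)
  obtain ⟨ι, f, -⟩ := SmoothBumpCovering.exists_isSubordinate (𝓡 3) (M := M) isClosed_univ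
    (U := fun _ => univ) fun _ _ => univ_mem
  have hsub : ∀ i, {x | (f i : M → ℝ) =ᶠ[𝓝 x] 1} ⊆ Function.support (f i) := fun i x hx => by
    simp [Function.mem_support, EventuallyEq.eq_of_nhds hx]
  obtain ⟨K, hK, hc, hKs⟩ := exists_iUnion_eq_closed_subset
    (u := fun i => {x | (f i : M → ℝ) =ᶠ[𝓝 x] 1}) (fun i => isOpen_setOf_eventually_nhds)
    (fun x => (f.locallyFinite.subset hsub).point_finite x)
    (eq_univ_of_forall fun x => mem_iUnion.2 (f.eventuallyEq_one' x (mem_univ x)))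
  have hι : Countable ι := countable_univ_iff.1
    (f.locallyFinite.countable_univ fun i => ⟨_, (f i).c_mem_support⟩)
  obtain ⟨e, he⟩ := hι.exists_injective_nat
  have lf : ∀ {T : ι → Set M}, LocallyFinite T →
      LocallyFinite (Function.extend e T fun _ => ∅) := fun {T} hT x => by
    obtain ⟨t, ht, h⟩ := hT x
    refine ⟨t, ht, (h.image e).subset fun n hn => ?_⟩
    by_cases h1 : ∃ i, e i = n
    · obtain ⟨i, rfl⟩ := h1
      exact ⟨i, by simpa [he.extend_apply] using hn, rfl⟩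
    · simp [Function.extend_apply' _ _ _ h1] at hn
  refine ⟨Function.extend e f.c fun _ => x₀, Function.extend e K fun _ => ∅,
    Function.extend e (fun i => tsupport (f i)) fun _ => ∅, fun n => ?_,
    lf (f.locallyFinite.subset fun i => (hKs i).trans (hsub i)), lf f.locallyFinite.closure,
    fun x => ?_⟩
  · by_cases h1 : ∃ i, e i = n
    · obtain ⟨i, rfl⟩ := h1
      rw [he.extend_apply, he.extend_apply, he.extend_apply]
      exact lift_bump (f i) (hc i) (hKs i)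
    · rw [Function.extend_apply' _ _ _ h1, Function.extend_apply' _ _ _ h1,
        Function.extend_apply' _ _ _ h1]
      exact lift_empty x₀
  · obtain ⟨i, hi⟩ := mem_iUnion.1 (hK.ge (mem_univ x))
    exact ⟨e i, by rwa [he.extend_apply]⟩

/-- The conditions hold on `K` in the chart at `c`. -/
def GoodOn (c : M) (K : Set M) (fg : VF M × VF M) : Prop :=
  ∀ x ∈ K, Good3 (chartRep c (fg.1 + fg.2)) (chartRep c (fg.1 - fg.2)) (extChartAt (𝓡 3) c x)

theorem eps_good {c : M} {K : Set M} (hK : IsCompact K) (hs : K ⊆ (chartAt E3 c).source)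
    {fg : VF M × VF M} (h : GoodOn c K fg) : ∃ ε > 0, ∀ p : VF M × VF M,
      (∀ x ∈ K, ∀ j ≤ 5, ‖iteratedFDeriv ℝ j (chartRep c p.1 - chartRep c fg.1)
        (extChartAt (𝓡 3) c x)‖ < ε) →
      (∀ x ∈ K, ∀ j ≤ 5, ‖iteratedFDeriv ℝ j (chartRep c p.2 - chartRep c fg.2)
        (extChartAt (𝓡 3) c x)‖ < ε) → GoodOn c K p := by
  by_contra hn
  have hn' : ∀ n : ℕ, ∃ (p : VF M × VF M) (x : M), x ∈ K ∧
      (∀ j ≤ 5, ‖iteratedFDeriv ℝ j (chartRep c p.1 - chartRep c fg.1)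
        (extChartAt (𝓡 3) c x)‖ < 1 / (n + 1 : ℝ)) ∧
      (∀ j ≤ 5, ‖iteratedFDeriv ℝ j (chartRep c p.2 - chartRep c fg.2)
        (extChartAt (𝓡 3) c x)‖ < 1 / (n + 1 : ℝ)) ∧
      ¬ Good3 (chartRep c (p.1 + p.2)) (chartRep c (p.1 - p.2)) (extChartAt (𝓡 3) c x) := by
    intro n
    by_contra h1
    exact hn ⟨1 / (n + 1 : ℝ), by positivity, fun p a b x hx => by_contra fun h2 =>
      h1 ⟨p, x, hx, a x hx, b x hx, h2⟩⟩
  choose p x hx a b hb using hn'
  obtain ⟨x₀, h₀, hl⟩ := hK.ultrafilter_le_nhds ((hyperfilter ℕ).map x)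
    (le_principal_iff.2 (Eventually.of_forall hx : ∀ᶠ n in (hyperfilter ℕ : Filter ℕ), x n ∈ K))
  have hl' : Tendsto x (hyperfilter ℕ) (𝓝 x₀) := hl
  have h0 : Tendsto (fun n : ℕ => 1 / (n + 1 : ℝ)) (hyperfilter ℕ) (𝓝 0) :=
    tendsto_one_div_add_atTop_nhds_zero_nat.mono_left Nat.hyperfilter_le_atTop
  obtain ⟨u, hu, h1, h2⟩ := exists_ord (l := hyperfilter ℕ) (k := 5)
    (y := fun n => extChartAt (𝓡 3) c (x n))
    (V := fun n => chartRep c (p n).1 - chartRep c fg.1)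
    (W := fun n => chartRep c (p n).2 - chartRep c fg.2)
    (.of_forall fun n => (contDiffAt_rep (hs (hx n)) _).sub (contDiffAt_rep (hs (hx n)) _))
    (.of_forall fun n => (contDiffAt_rep (hs (hx n)) _).sub (contDiffAt_rep (hs (hx n)) _))
    (fun j hj => squeeze_zero (fun _ => norm_nonneg _) (fun n => (a n j hj).le) h0)
    (fun j hj => squeeze_zero (fun _ => norm_nonneg _) (fun n => (b n j hj).le) h0)
  obtain ⟨n, hn⟩ := (good3_eventually (Y := fun n => chartRep c ((p n).1 + (p n).2))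
    (Y' := fun n => chartRep c ((p n).1 - (p n).2))
    ((continuousAt_extChartAt' (by simpa using hs h₀)).tendsto.comp hl')
    (contDiffAt_rep (hs h₀) _) (contDiffAt_rep (hs h₀) _)
    (.of_forall fun n => contDiffAt_rep (hs (hx n)) _)
    (.of_forall fun n => contDiffAt_rep (hs (hx n)) _) (by
      simp only [rep_add, add_sub_add_comm]
      exact h1.add h2) (by
      simp only [rep_sub, sub_sub_sub_comm (chartRep c _) (chartRep c _) (chartRep c fg.1)]
      exact h1.sub h2) hu (h x₀ h₀)).exists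
  exact hb n hn

theorem isOpen_all {c : ℕ → M} {K S : ℕ → Set M} (h : ∀ n, Lift (c n) (K n) (S n))
    (hK : LocallyFinite K) :
    letI := whitneyTop M
    IsOpen {fg : VF M × VF M | ∀ n, GoodOn (c n) (K n) fg} := by
  let _ := whitneyTop M
  refine isOpen_iff_mem_nhds.2 fun fg hfg => ?_
  choose ε hε H using fun n => eps_good (h n).cK (h n).src (hfg n)
  have key : ∀ X : VF M, whitneyNbhd X 5 c K ε ∈ 𝓝 X := fun X => by
    have ho : IsOpen (whitneyNbhd X 5 c K ε) :=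
      TopologicalSpace.isOpen_generateFrom_of_mem ⟨X, 5, c, K, ε, fun n => (h n).cK,
        fun n => (h n).src, hK, hε, rfl⟩
    refine ho.mem_nhds fun i x _ j _ => ?_
    rw [sub_self]
    simpa using hε i
  exact mem_of_superset (prod_mem_nhds (key fg.1) (key fg.2)) fun p hp n =>
    H n p (hp.1 n) (hp.2 n)

theorem rep_congr {c x : M} (hx : x ∈ (chartAt E3 c).source) {X Y : VF M}
    (h : ∀ᶠ y in 𝓝 x, X y = Y y) : chartRep c X =ᶠ[𝓝 (extChartAt (𝓡 3) c x)] chartRep c Y := by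
  refine eventually_chart hx ?_
  filter_upwards [h, (chartAt E3 c).open_source.mem_nhds hx] with z h1 hz
  rw [rep_eq hz, rep_eq hz, h1]

/-- Closed under locally stationary limits. -/
def Loc (W : Set (VF M)) : Prop :=
  ∀ (Zs : ℕ → VF M) (Z : VF M), (∀ n, Zs n ∈ W) → (∀ x, ∃ n, ∀ᶠ y in 𝓝 x, Zs n y = Z y) → Z ∈ W

theorem exists_loc {s : Set (VF M)} (hs : IsOpen[whitneyTop M] s) :
    ∀ X ∈ s, ∃ W, IsOpen[whitneyTop M] W ∧ Loc W ∧ X ∈ W ∧ W ⊆ s := by
  let _ := whitneyTop M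
  induction hs with
  | basic s hs =>
    refine fun X hX => ⟨s, TopologicalSpace.isOpen_generateFrom_of_mem hs, ?_, hX, Subset.rfl⟩
    obtain ⟨Y, k, c, K, ε, -, h2, -, -, rfl⟩ := hs
    intro Zs Z h1 h3 i x hx j hj
    obtain ⟨n, hn⟩ := h3 x
    rw [← (((rep_congr (h2 i hx) hn).sub EventuallyEq.rfl).iteratedFDeriv ℝ j).eq_of_nhds]
    exact h1 n i x hx j hj
  | univ => exact fun X _ => ⟨univ, isOpen_univ, fun _ _ _ _ => trivial, trivial, Subset.rfl⟩
  | inter s t _ _ h1 h2 =>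
    intro X hX
    obtain ⟨W, a1, a2, a3, a4⟩ := h1 X hX.1
    obtain ⟨W', b1, b2, b3, b4⟩ := h2 X hX.2
    exact ⟨W ∩ W', a1.inter b1, fun Zs Z h h' =>
      ⟨a2 Zs Z (fun n => (h n).1) h', b2 Zs Z (fun n => (h n).2) h'⟩, ⟨a3, b3⟩,
      inter_subset_inter a4 b4⟩
  | sUnion S _ h =>
    rintro X ⟨s, hs, hX⟩
    obtain ⟨W, a1, a2, a3, a4⟩ := h s hs X hX
    exact ⟨W, a1, a2, a3, a4.trans (subset_sUnion_of_mem hs)⟩

theorem step [T2Space M] {c : M} {K S : Set M} (h : Lift c K S) (fg : VF M × VF M)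
    {W : Set (VF M × VF M)}
    (hW : W ∈ @nhds _ (@instTopologicalSpaceProd _ _ (whitneyTop M) (whitneyTop M)) fg) :
    ∃ p ∈ W, GoodOn c K p ∧ ∀ x ∉ S, p.1 x = fg.1 x ∧ p.2 x = fg.2 x := by
  let _ := whitneyTop M
  obtain ⟨ι, _, A, A', hA, H⟩ := dense_good3
  choose U hU hU' using fun i => h.up (A i) (hA i).1
  choose U' hV hV' using fun i => h.up (A' i) (hA i).2
  obtain ⟨X, hX1, hX2⟩ := h.down (fg.1 + fg.2)
  obtain ⟨X', hX1', hX2'⟩ := h.down (fg.1 - fg.2)
  have h1 := (continuous_family fg.1 (fun i => (1 / 2 : ℝ) • (U i + U' i)) h.cS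
    fun i x hx => by simp [hU i x hx, hV i x hx]).prodMk
    (continuous_family fg.2 (fun i => (1 / 2 : ℝ) • (U i - U' i)) h.cS
      fun i x hx => by simp [hU i x hx, hV i x hx])
  obtain ⟨θ, h2, hθ⟩ := mem_closure_iff_nhds.1 (H X X' hX1 hX1' 0) _
    (h1.continuousAt.preimage_mem_nhds (t := W) (by simpa using hW))
  have hsum : ∀ (L : ι → VF M) (x : M), (∀ i, L i x = 0) → (∑ i, θ i • L i) x = 0 := by
    intro L x hL
    refine Finset.sum_induction _ (fun Z : VF M => Z x = 0) (fun a b ha hb => ?_) rfl fun i _ => ?_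
    · simp [ha, hb]
    · simp [hL i]
  refine ⟨_, h2, fun x hx => (hθ _).congr ?_ ?_, fun x hx => ⟨?_, ?_⟩⟩
  · have e : (fg.1 + ∑ i, θ i • (1 / 2 : ℝ) • (U i + U' i)) +
        (fg.2 + ∑ i, θ i • (1 / 2 : ℝ) • (U i - U' i)) = fg.1 + fg.2 + ∑ i, θ i • U i := by
      rw [add_add_add_comm, ← Finset.sum_add_distrib]
      congr 1
      exact Finset.sum_congr rfl fun i _ => by module
    simp only [e, rep_sum]
    filter_upwards [hX2 x hx, eventually_all.2 fun i => hU' i x hx] with z h3 h4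
    simp [h3, h4]
  · have e : (fg.1 + ∑ i, θ i • (1 / 2 : ℝ) • (U i + U' i)) -
        (fg.2 + ∑ i, θ i • (1 / 2 : ℝ) • (U i - U' i)) = fg.1 - fg.2 + ∑ i, θ i • U' i := by
      rw [add_sub_add_comm, ← Finset.sum_sub_distrib]
      congr 1
      exact Finset.sum_congr rfl fun i _ => by module
    simp only [e, rep_sum]
    filter_upwards [hX2' x hx, eventually_all.2 fun i => hV' i x hx] with z h3 h4
    simp [h3, h4]
  · change fg.1 x + _ = _
    rw [hsum _ x fun i => by simp [hU i x hx, hV i x hx], add_zero]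
  · change fg.2 x + _ = _
    rw [hsum _ x fun i => by simp [hU i x hx, hV i x hx], add_zero]

theorem limit {S : ℕ → Set M} (hS : LocallyFinite S) (Zs : ℕ → VF M)
    (h : ∀ n, ∀ x ∉ S n, Zs (n + 1) x = Zs n x) :
    ∃ Z : VF M, ∀ x, ∀ᶠ n in atTop, ∀ᶠ y in 𝓝 x, Zs n y = Z y := by
  obtain ⟨F, hF⟩ := LocallyFinite.exists_forall_eventually_eq_prod
    (f := fun n x => Zs n x) (hS.subset fun n x hx => by_contra fun h' => hx (h n x h'))
  refine ⟨⟨F, fun x => ?_⟩, fun x => (hF x).curry⟩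
  obtain ⟨n, hn⟩ := (hF x).curry.exists
  refine ((Zs n).contMDiff x).congr_of_eventuallyEq ?_
  filter_upwards [hn] with y hy
  rw [← hy]

theorem dense_all [T2Space M] {c : ℕ → M} {K S : ℕ → Set M} (h : ∀ n, Lift (c n) (K n) (S n))
    (hS : LocallyFinite S) :
    letI := whitneyTop M
    Dense {fg : VF M × VF M | ∀ n, GoodOn (c n) (K n) fg} := by
  let _ := whitneyTop M
  refine fun fg => mem_closure_iff_nhds.2 fun N hN => ?_
  obtain ⟨N₁, N₂, o1, m1, o2, m2, hsub⟩ := mem_nhds_prod_iff'.1 hN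
  obtain ⟨W₁, a1, a2, a3, a4⟩ := exists_loc o1 _ m1
  obtain ⟨W₂, b1, b2, b3, b4⟩ := exists_loc o2 _ m2
  let P : ℕ → VF M × VF M → Prop := fun n p => p ∈ W₁ ×ˢ W₂ ∧ ∀ i < n, GoodOn (c i) (K i) p
  have hP : ∀ n p, P n p → ∃ p', P (n + 1) p' ∧ ∀ x ∉ S n, p'.1 x = p.1 x ∧ p'.2 x = p.2 x := by
    intro n p hp
    have h1 : {p | P n p} ∈ 𝓝 p := inter_mem ((a1.prod b1).mem_nhds hp.1)
      ((eventually_all_finite (finite_lt_nat n)).2 fun i hi =>
        (isOpen_good3 (h i).cK (h i).src).mem_nhds (hp.2 i hi))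
    obtain ⟨p', h2, h3, h4⟩ := step (h n) p h1
    refine ⟨p', ⟨h2.1, fun i hi => ?_⟩, h4⟩
    rcases Nat.lt_succ_iff_lt_or_eq.1 hi with h5 | rfl
    exacts [h2.2 i h5, h3]
  choose! F hF hF' using hP
  let Z : ℕ → VF M × VF M := fun n => Nat.rec fg F n
  have hZ : ∀ n, P n (Z n) := fun n => by
    induction n with
    | zero => exact ⟨⟨a3, b3⟩, fun _ hi => absurd hi (Nat.not_lt_zero _)⟩
    | succ n ih => exact hF n _ ih
  obtain ⟨f, hf⟩ := limit hS (fun n => (Z n).1) fun n x hx => (hF' n _ (hZ n) x hx).1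
  obtain ⟨g, hg⟩ := limit hS (fun n => (Z n).2) fun n x hx => (hF' n _ (hZ n) x hx).2
  refine ⟨(f, g), hsub ⟨a4 (a2 _ f (fun n => (hZ n).1.1) fun x => (hf x).exists),
    b4 (b2 _ g (fun n => (hZ n).1.2) fun x => (hg x).exists)⟩, fun i x hx => ?_⟩
  obtain ⟨n, h1, h2, h3⟩ := ((hf x).and ((hg x).and (eventually_gt_atTop i))).exists
  refine ((hZ n).2 i h3 x hx).congr (rep_congr ((h i).src hx) ?_) (rep_congr ((h i).src hx) ?_) <;>
    filter_upwards [h1, h2] with y e1 e2 <;> simp [e1, e2]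

theorem open_dense [T2Space M] [SecondCountableTopology M] :
    letI := whitneyTop M
    ∃ G : Set (VF M × VF M), IsOpen G ∧ Dense G ∧ ∀ fg ∈ G, GoodM3 fg.1 fg.2 := by
  let _ := whitneyTop M
  rcases isEmpty_or_nonempty M with hM | ⟨⟨x₀⟩⟩
  · exact ⟨univ, isOpen_univ, dense_univ, fun _ _ x => isEmptyElim x⟩
  obtain ⟨c, K, S, h, hK, hS, hc⟩ := exists_cover x₀
  refine ⟨_, isOpen_all h hK, dense_all h hS, fun fg hfg x => ?_⟩
  obtain ⟨n, hn⟩ := hc x
  exact ⟨c n, (h n).src hn, hfg n x hn⟩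

end Pool.Agent.Lib.MP_f4f7c0_an.K
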