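import Pool.Agent.Lib.MP_f4f7c0_an.K.Short
import Pool.Agent.Lib.MP_f4f7c0_an.K.Open

/-! The explicit bound on the manifold. -/

namespace Pool.Agent.Lib.MP_f4f7c0_an.K

open Set Filter Topology MeasureTheory
open scoped Manifold ContDiff

variable {M : Type*} [TopologicalSpace M] [ChartedSpace E3 M] [IsManifold (𝓡 3) ∞ M]

/-- Time-optimal among the admissible trajectories that stay in `V`. -/
def OptIn (V : Set M) (f g : VF M) (q : ℝ → M) (T : ℝ) : Prop :=
  (∃ u, Admissible f g u q T) ∧ MapsTo q (Icc 0 T) V ∧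
    ∀ u' q' T', Admissible f g u' q' T' → MapsTo q' (Icc 0 T') V → q' 0 = q 0 → q' T' = q T →
      T ≤ T'

variable {V : Set M} {f g : VF M} {q : ℝ → M} {T s : ℝ}

theorem OptIn.rev (h : OptIn V f g q T) : OptIn V (-f) (-g) (fun t => q (T - t)) T := by
  obtain ⟨⟨u, hu⟩, hq, ho⟩ := h
  refine ⟨⟨_, Glue.adm_rev hu⟩, fun t ht => hq ⟨by linarith [ht.2], by linarith [ht.1]⟩,
    fun u' q' T' h' hq' e0 e1 => ?_⟩
  have := Glue.adm_rev h'
  simp only [neg_neg] at this
  exact ho _ _ _ this (fun t ht => hq' ⟨by linarith [ht.2], by linarith [ht.1]⟩)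
    (by simpa using e1) (by simpa using e0)

theorem OptIn.init (h : OptIn V f g q T) (hs : s ∈ Icc 0 T) : OptIn V f g q s := by
  obtain ⟨⟨u, hu⟩, hq, ho⟩ := h
  refine ⟨⟨_, Glue.adm_init hu hs⟩, hq.mono_left (Icc_subset_Icc_right hs.2),
    fun u' q' T' h' hq' e0 e1 => ?_⟩
  have := ho _ _ _ (Glue.adm_concat h' (Glue.adm_shift hu hs) (by simpa using e1))
    (fun t ht => by
      beta_reduce
      split_ifs with h1
      · exact hq' ⟨ht.1, h1⟩
      · exact hq ⟨by linarith [hs.1, not_le.1 h1], by linarith [ht.2]⟩)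
    (by simp [h'.nonneg, e0]) (by
      split_ifs with h1
      · have : s = T := le_antisymm hs.2 (by linarith)
        subst this
        simpa using e1
      · congr 1
        ring)
  linarith

theorem OptIn.shift (h : OptIn V f g q T) (hs : s ∈ Icc 0 T) :
    OptIn V f g (fun t => q (s + t)) (T - s) := by
  have := (h.rev.init (s := T - s) ⟨by linarith [hs.2], by linarith [hs.1]⟩).rev
  have e : ∀ t, T - (T - s - t) = s + t := fun t => by ring
  simpa only [neg_neg, e] using this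

theorem OptIn.finite (h : OptIn V f g q T) (H : ∀ x : M, ∃ U ∈ 𝓝 x, ∀ (q' : ℝ → M) (T' : ℝ),
    OptIn V f g q' T' → MapsTo q' (Icc 0 T') U → (switchingTimes q' T').Finite) :
    (switchingTimes q T).Finite := by
  obtain ⟨u, hu⟩ := h.1
  have key : (switchingTimes q T ∩ Icc 0 T).Finite := by
    refine (isCompact_Icc (a := 0) (b := T)).induction_on
      (p := fun s => (switchingTimes q T ∩ s).Finite) (by simp)
      (fun _ _ hs h => h.subset (inter_subset_inter_right _ hs))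
      (fun _ _ a b => by rw [inter_union_distrib_left]; exact a.union b) fun t ht => ?_
    obtain ⟨U, hU, HU⟩ := H (q t)
    obtain ⟨δ, hδ, hb⟩ := Metric.nhdsWithin_basis_ball.mem_iff.1 (hu.cont t ht hU)
    obtain ⟨a, b, a0, ab, bT, hn, hm⟩ : ∃ a b, 0 ≤ a ∧ a ≤ b ∧ b ≤ T ∧ Icc a b ∈ 𝓝[Icc 0 T] t ∧
        MapsTo q (Icc a b) U := by
      refine ⟨max 0 (t - δ / 2), min T (t + δ / 2), le_max_left _ _,
        (max_le ht.1 (by linarith)).trans (le_min ht.2 (by linarith)), min_le_left _ _, ?_,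
        fun τ hτ => hb ⟨?_, (le_max_left _ _).trans hτ.1, hτ.2.trans (min_le_left _ _)⟩⟩
      · rw [← Icc_inter_Icc]
        exact inter_mem self_mem_nhdsWithin
          (mem_nhdsWithin_of_mem_nhds (Icc_mem_nhds (by linarith) (by linarith)))
      · rw [Metric.mem_ball, Real.dist_eq, abs_lt]
        constructor <;> linarith [(le_max_right _ _).trans hτ.1, hτ.2.trans (min_le_right _ _)]
    refine ⟨Icc a b, hn, ((toFinite {a, b}).union ((HU _ _ ((h.init ⟨a0.trans ab, bT⟩).shift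
      ⟨a0, ab⟩) fun τ hτ => hm ⟨by linarith [hτ.1], by linarith [hτ.2]⟩).image
        fun τ => a + τ)).subset fun x hx => ?_⟩
    rcases hx.2.1.eq_or_lt with rfl | x1
    · exact Or.inl (Or.inl rfl)
    rcases hx.2.2.eq_or_lt with rfl | x2
    · exact Or.inl (Or.inr rfl)
    refine Or.inr ⟨x - a, ⟨⟨by linarith, by linarith⟩, ?_⟩, by simp⟩
    rintro ⟨S, hS, hq⟩
    rw [nhdsWithin_eq_nhds.2 (Icc_mem_nhds (by linarith) (by linarith))] at hS
    have hc : ContinuousAt (fun τ : ℝ => τ - a) x := by fun_prop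
    refine hx.1.2 ⟨(fun τ => τ - a) ⁻¹' S, mem_nhdsWithin_of_mem_nhds (hc hS), ?_⟩
    have := hq.comp (f := fun τ : ℝ => τ - a) (s := (fun τ => τ - a) ⁻¹' S)
      (contDiff_id.sub contDiff_const).contMDiff.contMDiffOn fun _ h => h
    exact this.congr fun τ _ => by simp
  exact key.subset fun t ht => ⟨ht, ht.1⟩

theorem switching66 (hg : GoodM3 f g) (q₀ : M) :
    ∃ U ∈ 𝓝 q₀, ∀ (V : Set M) (q : ℝ → M) (T : ℝ), IsOpen V → OptIn V f g q T →
      MapsTo q (Icc 0 T) U → (switchingTimes q T).encard ≤ (66 : ℕ) := by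
  obtain ⟨c, hc, hgood⟩ := hg q₀
  set φ := extChartAt (𝓡 3) c with hφ
  have hsrc : φ.source = (chartAt E3 c).source := extChartAt_source _ _
  have hop : IsOpen φ.target := isOpen_extChartAt_target c
  obtain ⟨r, hr, hball⟩ := Metric.nhds_basis_closedBall.mem_iff.1
    (hop.mem_nhds (φ.map_source (hsrc ▸ hc)))
  let χ : ContDiffBump (φ q₀) := ⟨r / 2, r, by linarith, by linarith⟩
  set U := Metric.ball (φ q₀) (r / 2) with hU
  have hUn : U ∈ 𝓝 (φ q₀) := Metric.ball_mem_nhds _ (by linarith)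
  have hUt : U ⊆ φ.target :=
    (Metric.ball_subset_closedBall.trans (Metric.closedBall_subset_closedBall (by linarith))).trans
      hball
  have hχ : ∀ y ∈ U, χ y = 1 := fun y hy => χ.one_of_mem_closedBall (Metric.ball_subset_closedBall hy)
  set X : E3 → E3 := fun y => χ y • chartRep c (f + g) y with hX
  set X' : E3 → E3 := fun y => χ y • chartRep c (f - g) y with hX'
  have hv : ∀ y ∈ U, ∀ m : ℝ, m • X y + (1 - m) • X' y =
      mfderiv (𝓡 3) (𝓡 3) φ (φ.symm y) (Glue.vel f g (2 * m - 1) (φ.symm y)) := fun y hy m => by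
    simp only [hX, hX', hχ y hy, one_smul]
    exact Glue.rep_vel f g c m y
  obtain ⟨U', hU', Hk⟩ := bound66 (X := X) (Y := X') (q₀ := φ q₀)
    ⟨Glue.contDiff_cut χ hop (Glue.contDiffOn_chartRep c _) hball, χ.hasCompactSupport.smul_right⟩
    ⟨Glue.contDiff_cut χ hop (Glue.contDiffOn_chartRep c _) hball, χ.hasCompactSupport.smul_right⟩
    (hgood.congr (by filter_upwards [hUn] with y hy using by simp [hX, hχ y hy])
      (by filter_upwards [hUn] with y hy using by simp [hX', hχ y hy]))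
  refine ⟨φ.source ∩ φ ⁻¹' (U' ∩ U),
    inter_mem ((isOpen_extChartAt_source c).mem_nhds (hsrc ▸ hc))
      (continuousAt_extChartAt' (hsrc ▸ hc) (inter_mem hU' hUn)),
    fun V q T hV h hq => ?_⟩
  have hO : IsOpen (U ∩ φ.symm ⁻¹' V) :=
    ((continuousOn_extChartAt_symm c).mono hUt).isOpen_inter_preimage Metric.isOpen_ball hV
  have hqO : MapsTo (fun t => φ (q t)) (Icc 0 T) (U ∩ φ.symm ⁻¹' V) := fun t ht =>
    ⟨(hq ht).2.2, by
      change φ.symm (φ (q t)) ∈ V
      rw [φ.left_inv (hq ht).1]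
      exact h.2.1 ht⟩
  obtain ⟨u, hu⟩ := h.1
  have hlip : LocallyLipschitzOn (Icc 0 T) fun t => φ (q t) := by
    intro t ht
    have hqt : ContinuousWithinAt q (Icc 0 T) t := hu.cont t ht
    obtain ⟨C, s, hs, hC⟩ := hu.lip t ht
    obtain ⟨K, V, hV, hK⟩ := (Glue.contDiffAt_change (q t) c (mem_chart_source E3 _)
      (hsrc ▸ (hq ht).1)).exists_lipschitzOnWith
    refine ⟨K * C, s ∩ {τ | q τ ∈ (extChartAt (𝓡 3) (q t)).source ∧
      extChartAt (𝓡 3) (q t) (q τ) ∈ V}, inter_mem hs ?_, fun x hx y hy => ?_⟩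
    · filter_upwards [hqt (extChartAt_source_mem_nhds (I := 𝓡 3) (q t)),
        ((continuousAt_extChartAt (I := 𝓡 3) (q t)).comp_continuousWithinAt hqt) hV]
        with τ a1 a2 using ⟨a1, a2⟩
    · have := (hK.comp (hC.mono inter_subset_left) fun τ hτ => hτ.2.2) hx hy
      simpa only [Function.comp, (extChartAt (𝓡 3) (q t)).left_inv hx.2.1,
        (extChartAt (𝓡 3) (q t)).left_inv hy.2.1] using this
  have htraj : Traj X X' (fun t => (1 + u t) / 2) (fun t => φ (q t)) T := by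
    refine ⟨hu.nonneg, (measurable_const.add hu.meas).div_const _,
      fun t => by linarith [(abs_le.1 (hu.bound t)).1],
      fun t => by linarith [(abs_le.1 (hu.bound t)).2],
      hlip.exists_lipschitzOnWith_of_compact isCompact_Icc, ?_⟩
    filter_upwards [hu.ode] with t h1 ht
    have h2 := hq (Ioo_subset_Icc_self ht)
    have h3 : Glue.HD q t (Glue.vel f g (u t) (q t)) := h1 ht
    rw [hv _ h2.2.2, φ.left_inv h2.1, show 2 * ((1 + u t) / 2) - 1 = u t by ring]
    exact h3.chart (hsrc ▸ h2.1)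
  have hopt : Opt2 X X' (U ∩ φ.symm ⁻¹' V) (fun t => φ (q t)) T := by
    intro s t hs hst htT m' Q T' h' hQ' e0 e1
    have hQ := hQ'.mono_right inter_subset_left
    obtain ⟨D, hD⟩ := h'.lip
    refine ((h.init ⟨hs.trans hst, htT⟩).shift ⟨hs, hst⟩).2.2
      (fun t => 2 * m' t - 1)
      (fun t => φ.symm (Q t)) T' ⟨h'.nonneg, (h'.meas.const_mul _).sub_const _,
        fun t => abs_le.2 ⟨by linarith [h'.m0 t], by linarith [h'.m1 t]⟩,
        (continuousOn_extChartAt_symm c).comp hD.continuousOn (hQ.mono_right hUt),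
        fun t ht => ?_, ?_⟩ (fun t ht => (hQ' ht).2) ?_ ?_
    · have h1 := hUt (hQ ht)
      have h2 := Glue.contDiffAt_change c (φ.symm (Q t)) (hsrc ▸ φ.map_target h1)
        (mem_chart_source E3 _)
      rw [φ.right_inv h1] at h2
      obtain ⟨L, W, hW, hL⟩ := h2.exists_lipschitzOnWith
      exact ⟨L * D, Icc 0 T' ∩ Q ⁻¹' W, inter_mem self_mem_nhdsWithin (hD.continuousOn t ht hW),
        hL.comp (hD.mono inter_subset_left) fun _ h => h.2⟩
    · filter_upwards [h'.ode] with t h1 ht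
      have h2 := hQ (Ioo_subset_Icc_self ht)
      exact Glue.HD.lift (hUt h2) (hv _ h2 _ ▸ h1 ht)
    · simp only [e0]
      exact φ.left_inv (hq ⟨by linarith, by linarith⟩).1
    · simp only [e1]
      exact φ.left_inv (hq ⟨by linarith, by linarith⟩).1
  have hsub : switchingTimes q T ⊆ sw (fun t => φ (q t)) T := by
    rintro t ⟨ht1, ht2⟩
    refine ⟨ht1, ?_⟩
    rintro ⟨s, hs, hsm⟩
    refine ht2 ⟨s ∩ Icc 0 T, inter_mem hs self_mem_nhdsWithin, ?_⟩
    refine ((contMDiffOn_extChartAt_symm (I := 𝓡 3) (n := ∞) c).comp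
      (hsm.mono inter_subset_left).contMDiffOn fun τ hτ => hUt (hq hτ.2).2.2).congr fun τ hτ => ?_
    exact (φ.left_inv (hq hτ.2).1).symm
  exact (encard_le_encard hsub).trans
    (Hk _ hO _ _ T htraj (fun t ht => (hq ht).2.1) hqO hopt)

end Pool.Agent.Lib.MP_f4f7c0_an.K
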