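import Pool.Agent.Lib.MP_f4f7c0_an.UFinal
import Pool.Agent.Lib.MP_f4f7c0_an.K.Cases

/-! The explicit bound in a chart, for trajectories that are optimal in some open set. -/

namespace Pool.Agent.Lib.MP_f4f7c0_an.K

open Set Filter Topology MeasureTheory Metric
open scoped ContDiff

variable {X Y : E3 → E3} {q₀ : E3}

/-- The bound `N` holds for all covectors that matter at `q₀`. -/
def Hyp (N : ℕ) (X Y : E3 → E3) (q₀ : E3) : Prop :=
  ∀ p : E3 →L[ℝ] ℝ, p ≠ 0 → p (X q₀ - Y q₀) = 0 → p (br X Y [] q₀) = 0 →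
    BddN N fun w => p (br X Y w q₀)

theorem hyp64 (hX : SC X) (hY : SC Y) (hg : Good3 X Y q₀) : Hyp 64 X Y q₀ := fun p a b c =>
  bdd64 (hg.good p a b c) (by simpa using congrArg p (congrFun (br_sym hX.sm hY.sm []) q₀))

theorem hyp18 (hX : SC X) (hY : SC Y) (hg : Good3 X Y q₀)
    (h : ∀ p : E3 →L[ℝ] ℝ, p ≠ 0 → p (X q₀ - Y q₀) = 0 → p (br X Y [] q₀) = 0 →
      p (br X Y [true] q₀) ≠ 0 ∨ p (br X Y [false] q₀) ≠ 0) : Hyp 18 X Y q₀ := fun p a b c =>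
  bdd18 (hg.good p a b c) (by simpa using congrArg p (congrFun (br_sym hX.sm hY.sm []) q₀))
    (h p a b c)

/-- The bound for short extremals whose initial covector lies in `S`. -/
def LocN (N : ℕ) (hX : ContDiff ℝ ∞ X) (hY : ContDiff ℝ ∞ Y) (q₀ : E3) (C : ℝ) (S : Set (E3 →L[ℝ] ℝ)) :
    Prop :=
  ∃ r > 0, ∃ δ > 0, ∀ m q T p (h : Traj X Y m q T) (hT : T ∈ Ioc 0 T)
    (hp : Adjoint X Y m q p T), T ≤ δ → MapsTo q (Icc 0 T) (ball q₀ r) → p 0 ∈ S →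
    (∀ t ∈ Icc 0 T, ‖p t - p 0‖ ≤ C * T) →
    ((Smooth.ext hX hY h hT hp).Flat ∨ (Smooth.ext hX hY h hT hp).SI2 (C * T)) →
    (Smooth.ext hX hY h hT hp).Br.encard ≤ N

theorem loc_at (hX : ContDiff ℝ ∞ X) (hY : ContDiff ℝ ∞ Y) {q₀ : E3} (hg : Good X Y q₀) {C : ℝ}
    {N : ℕ} (hN : 1 ≤ N) (hB : Hyp N X Y q₀) (hC : 0 < C) {p₀ : E3 →L[ℝ] ℝ} (h₀ : p₀ ≠ 0) : ∃ S ∈ 𝓝 p₀, LocN N hX hY q₀ C S := by
  obtain ⟨ε, hε, H⟩ := shortExt (h₀ := fun w => p₀ (br X Y w q₀)) (φ₀ := p₀ (X q₀ - Y q₀))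
    hN (hg p₀ h₀) (hB p₀ h₀)
  have near : ∀ {V : E3 → E3}, Continuous V →
      ∀ᶠ z : (E3 →L[ℝ] ℝ) × E3 in 𝓝 (p₀, q₀), |z.1 (V z.2) - p₀ (V q₀)| ≤ ε := by
    intro V hV
    have hc : Continuous fun z : (E3 →L[ℝ] ℝ) × E3 => |z.1 (V z.2) - p₀ (V q₀)| := by fun_prop
    exact (hc.continuousAt.eventually (gt_mem_nhds (by simpa using hε))).mono fun _ h => h.le
  have ev := (near (hX.continuous.sub hY.continuous)).and
    ((eventually_all_finite (List.finite_length_le Bool 4)).2 fun w _ =>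
      near (contDiff_br hX hY w).continuous)
  obtain ⟨ρ, hρ, Hρ⟩ := Metric.eventually_nhds_iff.1 ev
  obtain ⟨δ, hδ, d1, d2, d3⟩ : ∃ δ > 0, δ ≤ ε ∧ δ ≤ ε / C ∧ δ ≤ ρ / 2 / C :=
    ⟨min ε (min (ε / C) (ρ / 2 / C)), by positivity, min_le_left _ _,
      (min_le_right _ _).trans (min_le_left _ _), (min_le_right _ _).trans (min_le_right _ _)⟩
  rw [le_div_iff₀ hC] at d2 d3
  refine ⟨ball p₀ (ρ / 2), ball_mem_nhds _ (by positivity), ρ, hρ, δ, hδ,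
    fun m q T p h hT hp hTδ hq hp0 hpt hS => ?_⟩
  have hCT : C * T ≤ δ * C := by rw [mul_comm]; exact mul_le_mul_of_nonneg_right hTδ hC.le
  have hz : ∀ t ∈ Icc 0 T, dist (p t, q t) (p₀, q₀) < ρ := by
    intro t ht
    rw [Prod.dist_eq]
    refine max_lt ?_ (hq ht)
    have h1 := dist_triangle (p t) (p 0) p₀
    have h2 := hpt t ht
    rw [← dist_eq_norm] at h2
    have h3 : dist (p 0) p₀ < ρ / 2 := hp0
    change dist (p t) p₀ < ρ
    linarith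
  exact H _ ⟨hTδ.trans d1, fun w hw t ht => (Hρ (hz t ht)).2 w hw⟩ (fun t ht => (Hρ (hz t ht)).1)
    (hS.imp id fun h1 => h1.mono (hCT.trans d2))

theorem loc_sphere (hX : ContDiff ℝ ∞ X) (hY : ContDiff ℝ ∞ Y) {q₀ : E3} (hg : Good X Y q₀)
    {C : ℝ} {N : ℕ} (hN : 1 ≤ N) (hB : Hyp N X Y q₀) (hC : 0 < C) :
    LocN N hX hY q₀ C (sphere 0 1) := by
  refine (isCompact_sphere (0 : E3 →L[ℝ] ℝ) 1).induction_on (p := LocN N hX hY q₀ C)
    ⟨1, one_pos, 1, one_pos, fun _ _ _ _ _ _ _ _ _ h => h.elim⟩ ?_ ?_ ?_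
  · rintro S S' hS ⟨r, hr, δ, hδ, H⟩
    exact ⟨r, hr, δ, hδ, fun m q T p h hT hp h1 h2 h3 => H m q T p h hT hp h1 h2 (hS h3)⟩
  · rintro S S' ⟨r, hr, δ, hδ, H⟩ ⟨r', hr', δ', hδ', H'⟩
    refine ⟨min r r', lt_min hr hr', min δ δ', lt_min hδ hδ',
      fun m q T p h hT hp h1 h2 h3 h4 h5 => ?_⟩
    rcases h3 with h3 | h3
    · exact H m q T p h hT hp (h1.trans (min_le_left _ _))
        (h2.mono_right (ball_subset_ball (min_le_left _ _))) h3 h4 h5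
    · exact H' m q T p h hT hp (h1.trans (min_le_right _ _))
        (h2.mono_right (ball_subset_ball (min_le_right _ _))) h3 h4 h5
  · intro p₀ hp₀
    obtain ⟨S, hS, H⟩ := loc_at hX hY hg hN hB hC (p₀ := p₀) (by
      rintro rfl
      simp at hp₀)
    exact ⟨S, mem_nhdsWithin_of_mem_nhds hS, H⟩

theorem short0 (hX : SC X) (hY : SC Y) {q₀ : E3} (hg : Good3 X Y q₀) {N : ℕ} (hN : 1 ≤ N)
    (hB : Hyp N X Y q₀) : ∃ r > 0, ∃ δ₀ > 0, ∀ U, IsOpen U →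
      ∀ m q T, Traj X Y m q T → MapsTo q (Icc 0 T) (ball q₀ r) → MapsTo q (Icc 0 T) U →
        Opt X Y U q T → T ≤ δ₀ → (sw q T ∩ Ioo 0 T).encard ≤ N := by
  obtain ⟨C, T₀, hC, hT₀, -, H⟩ := window hX hY
  obtain ⟨r1, hr1, δ, hδ, H1⟩ := loc_sphere hX.sm hY.sm hg.good hN hB hC
  obtain ⟨r2, hr2, H2⟩ := UShort.once hX.sm hY.sm hg.d1
  obtain ⟨r, hr, s1, s2⟩ : ∃ r > 0, r ≤ r1 ∧ r ≤ r2 :=
    ⟨min r1 r2, by positivity, min_le_left _ _, min_le_right _ _⟩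
  refine ⟨r, hr, min δ T₀, lt_min hδ hT₀, fun U hU m q T h hq hqU opt hT => ?_⟩
  by_cases hA : ∀ t ∈ sw q T ∩ Ioo 0 T, X (q t) = Y (q t)
  · refine (encard_le_one_iff_subsingleton.2 ((H2 m q T h
      (hq.mono_right (ball_subset_ball s2))).anti fun t ht => ⟨ht.1.1, hA t ht⟩)).trans ?_
    exact_mod_cast hN
  · push Not at hA
    obtain ⟨t₀, ht₀, hne⟩ := hA
    have hT' : T ∈ Ioc 0 T := ⟨ht₀.2.1.trans ht₀.2.2, le_rfl⟩
    obtain ⟨p, hp, h1, h2, h3⟩ := H m q T U h hT' (hT.trans (min_le_right _ _)) hU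
      hqU opt t₀ ht₀.2 (not_bang_of_sw hX.sm hY.sm h ht₀.1 ht₀.2) hne
    exact (encard_le_encard fun t ht => mem_Br_of_sw hX.sm hY.sm h hT' hp ht.1 ht.2).trans
      (H1 m q T p h hT' hp (hT.trans (min_le_left _ _)) (hq.mono_right (ball_subset_ball s1))
        (by simpa using h1) h2 h3)

theorem short (hX : SC X) (hY : SC Y) {q₀ : E3} (hg : Good3 X Y q₀) {N : ℕ} (hN : 1 ≤ N)
    (hB : Hyp N X Y q₀) : ∃ r > 0, ∃ δ₀ > 0, ∀ U, IsOpen U →
      ∀ m q T, Traj X Y m q T → MapsTo q (Icc 0 T) (ball q₀ r) → MapsTo q (Icc 0 T) U →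
        Opt2 X Y U q T → ∀ s t, t - s ≤ δ₀ → (sw q T ∩ Icc s t).encard ≤ (2 + N : ℕ) := by
  obtain ⟨r, hr, δ, hδ, H⟩ := short0 hX hY hg hN hB
  refine ⟨r, hr, δ, hδ, fun U hU m q T h hq hqU opt s t hst => ?_⟩
  have hs : 0 ≤ max s 0 := le_max_right _ _
  have ht : min t T ≤ T := min_le_right _ _
  have hs' : s ≤ max s 0 := le_max_left _ _
  have ht' : min t T ≤ t := min_le_left _ _
  have hx : ∀ x ∈ sw q T ∩ Icc s t, max s 0 ≤ x ∧ x ≤ min t T := fun x hx =>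
    ⟨max_le hx.2.1 hx.1.1.1, le_min hx.2.2 hx.1.1.2⟩
  generalize max s 0 = a at *
  generalize min t T = b at *
  have h2 : ({a, b} : Set ℝ).encard ≤ 2 := by
    refine (encard_insert_le _ _).trans ?_
    rw [encard_singleton]
    exact le_of_eq one_add_one_eq_two
  by_cases hab : a ≤ b
  · have h1 := H U hU _ _ _ (h.shift hs hab ht)
      (fun τ hτ => hq ⟨by linarith [hτ.1], by linarith [hτ.2]⟩)
      (fun τ hτ => hqU ⟨by linarith [hτ.1], by linarith [hτ.2]⟩)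
      (opt a b hs hab ht) (by linarith)
    have hsub : sw q T ∩ Icc s t ⊆ {a, b} ∪
        (fun τ => a + τ) '' (sw (fun τ => q (a + τ)) (b - a) ∩ Ioo 0 (b - a)) := by
      intro x hx'
      obtain ⟨x1, x2⟩ := hx x hx'
      rcases x1.eq_or_lt with rfl | x1
      · exact Or.inl (Or.inl rfl)
      rcases x2.eq_or_lt with rfl | x2
      · exact Or.inl (Or.inr rfl)
      exact Or.inr ⟨x - a, ⟨sw_shift hx'.1 hs x1 x2 ht, by linarith, by linarith⟩, by simp⟩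
    refine (encard_le_encard hsub).trans ((encard_union_le _ _).trans ?_)
    push_cast
    exact add_le_add h2 ((encard_image_le _ _).trans h1)
  · have : sw q T ∩ Icc s t = ∅ := eq_empty_of_forall_notMem fun x hx' =>
      hab ((hx x hx').1.trans (hx x hx').2)
    simp [this]

/-- The bound `k` near `q₀`. -/
def BoundN (k : ℕ) (X Y : E3 → E3) (q₀ : E3) : Prop :=
  ∃ U' ∈ 𝓝 q₀, ∀ U, IsOpen U → ∀ m q T, Traj X Y m q T → MapsTo q (Icc 0 T) U' →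
    MapsTo q (Icc 0 T) U → Opt2 X Y U q T → (sw q T).encard ≤ k

theorem BoundN.mono {k k' : ℕ} (h : BoundN k X Y q₀) (hk : k ≤ k') : BoundN k' X Y q₀ := by
  obtain ⟨U', h1, h2⟩ := h
  exact ⟨U', h1, fun U a m q T b c d e => (h2 U a m q T b c d e).trans (by exact_mod_cast hk)⟩

open ULoc1 in
theorem local0 (hX : SC X) (hY : SC Y) (hg : Good3 X Y q₀)
    (h : ∀ c ∈ Icc (0 : ℝ) 1, c • X q₀ + (1 - c) • Y q₀ ≠ 0) : BoundN (2 + 64) X Y q₀ := by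
  obtain ⟨r, hr, δ, hδ, H⟩ := short hX hY hg (by norm_num) (hyp64 hX hY hg)
  obtain ⟨l, u, h1, h2⟩ := geometric_hahn_banach_point_closed (x := (0 : E3))
    (convex_segment (X q₀) (Y q₀)) (by
      rw [segment_eq_image]
      exact (isCompact_Icc.image (by fun_prop)).isClosed) (by
      rintro ⟨a, b, ha, hb, hab, h1⟩
      exact h a ⟨ha, by linarith⟩ (by rwa [show 1 - a = b by linarith]))
  rw [map_zero] at h1
  obtain ⟨ρ, hρ, a1, a2, a3⟩ := (Eventually.and (Ioo_mem_nhdsGT hr) ((ev_small ‖l‖ (mul_pos h1 hδ)).and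
    ((ev_ball ((l.continuous.comp hX.sm.continuous).continuousAt.eventually
      (lt_mem_nhds (h2 _ (left_mem_segment ℝ _ _))))).and
    (ev_ball ((l.continuous.comp hY.sm.continuous).continuousAt.eventually
      (lt_mem_nhds (h2 _ (right_mem_segment ℝ _ _)))))))).exists
  refine ⟨ball q₀ ρ, ball_mem_nhds _ hρ.1, fun U hU m q T ht hq hqU opt => ?_⟩
  have h3 := ((DD.id.cmul u).sub (dd ht l)).le_of_ae ht.nonneg (.of_forall fun τ hτ => by
    have b1 := a2 _ (hq (Ioo_subset_Icc_self hτ))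
    have b2 := a3 _ (hq (Ioo_subset_Icc_self hτ))
    simp only [Function.comp] at b1 b2
    nlinarith [ht.m0 τ, ht.m1 τ])
  have h4 := (le_abs_self _).trans (sub_le l (hq (right_mem_Icc.2 ht.nonneg))
    (hq (left_mem_Icc.2 ht.nonneg)))
  have h5 := H U hU m q T ht (hq.mono_right (ball_subset_ball hρ.2.le)) hqU opt 0 T (by nlinarith)
  rwa [inter_eq_left.2 fun t ht => ht.1] at h5

open ULoc1 in
theorem local1 (hX : SC X) (hY : SC Y) (hg : Good3 X Y q₀) {c : ℝ}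
    (hc : c ∈ Ioo (0 : ℝ) 1) (h : c • X q₀ + (1 - c) • Y q₀ = 0) :
    BoundN (2 + 18 + (2 + 18)) X Y q₀ := by
  obtain ⟨r, hr, δ₀, hδ₀, H⟩ := short hX hY hg (by norm_num)
    (hyp18 hX hY hg (hg.d2 c (Ioo_subset_Icc_self hc) h))
  obtain ⟨C, T₀, hC, hT₀, hCT, Hw⟩ := window hX hY
  obtain ⟨K, hK⟩ := bound hX hY q₀
  obtain ⟨η, hη, hd⟩ := dicho hX hY hg hc h
  obtain ⟨δ₁, hδ₁, HL⟩ := long1 (K := 2 * K) hη hc
  obtain ⟨δ, hδ, d0, d1, d2⟩ : ∃ δ > 0, δ ≤ δ₀ ∧ δ ≤ δ₁ ∧ δ ≤ T₀ :=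
    ⟨min δ₀ (min δ₁ T₀), by positivity, min_le_left _ _,
      (min_le_right _ _).trans (min_le_left _ _), (min_le_right _ _).trans (min_le_right _ _)⟩
  obtain ⟨ε, hε, HL⟩ := HL δ ⟨hδ, d1⟩
  have hG : X q₀ ≠ Y q₀ := fun h1 => by
    have h2 : Y q₀ = 0 := by rwa [h1, ← add_smul, add_sub_cancel, one_smul] at h
    exact hg.d1 h1 (by simp [br, VectorField.lieBracket, h1, h2])
  obtain ⟨l, -, hl⟩ := GenB.exists_cov (v := 0) (w := X q₀ - Y q₀) (by simpa using sub_ne_zero.2 hG)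
  have hl' := congrArg l h
  simp only [map_add, map_sub, map_smul, smul_eq_mul, map_zero] at hl hl'
  have hε' : 0 < ε / 2 / δ := by positivity
  have e1 : ∀ᶠ y in 𝓝 q₀, |l (X y) - 1 + c| ≤ ε / 2 / δ :=
    (show Continuous fun y => |l (X y) - 1 + c| by have := hX.sm.continuous; fun_prop
      ).continuousAt.eventually (ge_mem_nhds (by
        beta_reduce
        rwa [show l (X q₀) - 1 + c = 0 by linear_combination hl' + (1 - c) * hl, abs_zero]))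
  have e2 : ∀ᶠ y in 𝓝 q₀, |l (Y y) - 0 + c| ≤ ε / 2 / δ :=
    (show Continuous fun y => |l (Y y) - 0 + c| by have := hY.sm.continuous; fun_prop
      ).continuousAt.eventually (ge_mem_nhds (by
        beta_reduce
        rwa [show l (Y q₀) - 0 + c = 0 by linear_combination hl' - c * hl, abs_zero]))
  have e3 : ∀ᶠ y in 𝓝 q₀, X y ≠ Y y :=
    (isOpen_ne_fun hX.sm.continuous hY.sm.continuous).mem_nhds hG
  obtain ⟨ρ, hρ, a1, a2⟩ := (Eventually.and (Ioo_mem_nhdsGT hr) ((ev_small ‖l‖ (half_pos hε)).and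
    (ev_ball (hK.and (hd.and (e1.and (e2.and e3))))))).exists
  refine ⟨ball q₀ ρ, ball_mem_nhds _ hρ.1, fun U hU m q T ht hq hqU opt => ?_⟩
  have hq' := hq.mono_right (ball_subset_ball hρ.2.le)
  have key : sw q T ⊆ sw q T ∩ Icc 0 (δ / 2) ∪ sw q T ∩ Icc (T - δ / 2) T := by
    intro t h1
    by_contra h2
    have h3 : δ / 2 < t := not_le.1 fun h => h2 (Or.inl ⟨h1, h1.1.1, h⟩)
    have h4 : t < T - δ / 2 := not_le.1 fun h => h2 (Or.inr ⟨h1, h, h1.1.2⟩)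
    have s0 : 0 ≤ t - δ / 2 := by linarith
    have s1 : t - δ / 2 ≤ t + δ / 2 := by linarith
    have s2 : t + δ / 2 ≤ T := by linarith
    have h5 := sw_shift h1 s0 (by linarith) (by linarith) s2
    have h6 := ht.shift s0 s1 s2
    have h7 := opt _ _ s0 s1 s2
    rw [show t + δ / 2 - (t - δ / 2) = δ by ring] at h5 h6 h7
    rw [sub_sub_cancel] at h5
    have hm : δ / 2 ∈ Ioo 0 δ := ⟨half_pos hδ, half_lt_self hδ⟩
    have hb : ∀ τ ∈ Icc 0 δ, q (t - δ / 2 + τ) ∈ ball q₀ ρ := fun τ hτ =>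
      hq ⟨by linarith [hτ.1], by linarith [hτ.2]⟩
    obtain ⟨p, hp, p0, p1, p2⟩ := Hw _ _ δ U h6 ⟨hδ, le_rfl⟩ d2 hU
      (fun τ hτ => hqU ⟨by linarith [hτ.1], by linarith [hτ.2]⟩) h7 _ hm
      (not_bang_of_sw hX.sm hY.sm h6 h5 hm) (a2 _ (hb _ (Ioo_subset_Icc_self hm))).2.2.2.2
    have hCδ : C * δ ≤ 1 / 2 := (mul_le_mul_of_nonneg_left d2 hC.le).trans hCT
    have p3 : ∀ τ ∈ Icc 0 δ, 1 / 2 ≤ ‖p τ‖ ∧ ‖p τ‖ ≤ 2 := fun τ hτ => by
      have := abs_le.1 ((abs_norm_sub_norm_le _ _).trans (p1 τ hτ))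
      constructor <;> linarith [this.1, this.2]
    refine HL _ rfl (fun w hw τ hτ => (p τ).le_of_opNorm_le_of_le (p3 τ hτ).2
      ((a2 _ (hb τ hτ)).1 w hw)) (fun s s' b0 b1 b2 => ?_)
      (fun τ hτ => (a2 _ (hb τ hτ)).2.1 _ (p3 τ hτ).1 (p3 τ hτ).2)
      (p2.imp id fun h => h.mono (by linarith))
      (mem_Br_of_sw hX.sm hY.sm h6 ⟨hδ, le_rfl⟩ hp h5 hm)
    set e := Smooth.ext hX.sm hY.sm h6 ⟨hδ, le_rfl⟩ hp
    have hs : s ∈ Icc 0 δ := ⟨b0, b1.trans b2⟩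
    have hs' : s' ∈ Icc 0 δ := ⟨b0.trans b1, b2⟩
    have b3 := (((dd h6 l).sub e.dx).add (DD.id.cmul c)).abs_le (B := ε / 2 / δ)
      (.of_forall fun τ hτ => by
        have b4 := (a2 _ (hb τ (Ioo_subset_Icc_self hτ))).2.2
        simpa only [mul_one, smul_eq_mul, Real.norm_eq_abs] using
          Pmp.norm_mix (V := ℝ) (h6.m0 τ) (h6.m1 τ) b4.1 b4.2.1) hs hs'
    have b5 : ε / 2 / δ * |s' - s| ≤ ε / 2 := by
      rw [← le_div_iff₀' hε', div_div_cancel₀ (half_pos hε).ne']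
      exact Pmp.abs_sub_le_of_mem hs hs'
    have b6 := abs_le.1 ((sub_le l (hb s' hs') (hb s hs)).trans a1)
    have b7 := abs_le.1 (b3.trans b5)
    exact abs_le.2 ⟨by linarith [b6.1, b7.2], by linarith [b6.2, b7.1]⟩
  refine (encard_le_encard key).trans ((encard_union_le _ _).trans ?_)
  rw [Nat.cast_add]
  exact add_le_add (H U hU m q T ht hq' hqU opt _ _ (by linarith))
    (H U hU m q T ht hq' hqU opt _ _ (by linarith))

open ULoc2 in
theorem local2 (hX : SC X) (hY : SC Y) (hg : Good3 X Y q₀)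
    (h : X q₀ = 0) : BoundN (2 + 18 + (2 + 18) + (2 + 18)) X Y q₀ := by
  obtain ⟨r, hr, δ₀, hδ₀, hN⟩ := short hX hY hg (by norm_num)
    (hyp18 hX hY hg fun p a b c => Or.inl (hg.zx.kal h p a b c))
  have cX := hX.sm.continuous
  have cY := hY.sm.continuous
  have cb := fun w => (contDiff_br hX.sm hY.sm w).continuous
  have had : ∀ w, br X Y (true :: w) q₀ = -fderiv ℝ X q₀ (br X Y w q₀) := fun w => by
    simp [br, VectorField.lieBracket, h]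
  obtain ⟨hG, c₀, c₁, c₂, hc, hf⟩ := coef (L := fderiv ℝ X q₀) (G := X q₀ - Y q₀)
    (V := br X Y [] q₀) (by simp [br, VectorField.lieBracket, h]) (had []) (had [true])
    (hg.zx.kal h) (hg.zx.eig h)
  obtain ⟨D, hD, hp⟩ := near_bound (G := fun y => X y - Y y) (cX.sub cY) (cb []) (cb [true])
    (hg.zx.kal h)
  obtain ⟨l, -, hl⟩ := GenB.exists_cov (v := 0) (w := Y q₀) fun c hc => hG (by simp [h, hc])
  have hd : 0 < δ₀ / 2 := half_pos hδ₀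
  obtain ⟨ε, hε, H⟩ := long2
    (K := D * ‖br X Y [false] q₀‖ ^ 2 + D * ‖br X Y [true, false] q₀‖ ^ 2 + 1) hf hd
  have ev : ∀ {F : E3 → ℝ} {R : ℝ}, Continuous F → F q₀ < R → ∀ᶠ y in 𝓝 q₀, F y ≤ R :=
    fun hF hR => (hF.continuousAt.eventually (gt_mem_nhds hR)).mono fun _ h => h.le
  have e1 := ev (F := fun y => D * ‖br X Y [false] y‖ ^ 2)
    (R := D * ‖br X Y [false] q₀‖ ^ 2 + D * ‖br X Y [true, false] q₀‖ ^ 2 + 1)
    (continuous_const.mul ((cb _).norm.pow 2)) (by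
      have : 0 ≤ D * ‖br X Y [true, false] q₀‖ ^ 2 := by positivity
      linarith)
  have e2 := ev (F := fun y => D * ‖br X Y [true, false] y‖ ^ 2)
    (R := D * ‖br X Y [false] q₀‖ ^ 2 + D * ‖br X Y [true, false] q₀‖ ^ 2 + 1)
    (continuous_const.mul ((cb _).norm.pow 2)) (by
      have : 0 ≤ D * ‖br X Y [false] q₀‖ ^ 2 := by positivity
      linarith)
  have e3 := ev (F := fun y => D * ‖br X Y [true, true] y -
      (c₂ • br X Y [true] y + c₁ • br X Y [] y + c₀ • (X y - Y y))‖ ^ 2) (R := ε)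
    (continuous_const.mul (((cb _).sub ((((cb _).const_smul c₂).add ((cb _).const_smul c₁)).add
      ((cX.sub cY).const_smul c₀))).norm.pow 2)) (by simpa [← hc] using hε)
  have e4 := ev (F := fun y => |l y - l q₀|) (R := ε / 2) (by fun_prop) (by simpa using hε)
  have e5 := ev (F := fun y => |l (X y)|) (R := ε) (by fun_prop) (by simpa [h] using hε)
  have e6 := ev (F := fun y => |l (Y y) - 1|) (R := ε) (by fun_prop) (by simpa [hl] using hε)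
  refine ⟨_, inter_mem (ball_mem_nhds q₀ hr)
    ((hp.and (e1.and (e2.and e3))).and (e4.and (e5.and e6))),
    fun U hU m q T ht hq hqU opt => ?_⟩
  have hw := hN U hU m q T ht (fun t h => (hq h).1) hqU opt
  have hw' : ∀ s t, t - s ≤ 2 * (δ₀ / 2) → (sw q T ∩ Icc s t).encard ≤ (2 + 18 : ℕ) :=
    fun s t h => hw s t (by linarith)
  by_cases hs : ∃ s ∈ sw q T, δ₀ / 2 ≤ s ∧ s + δ₀ / 2 ≤ T
  swap
  · exact cover (s₀ := 0) hd (fun _ h => h.1) hw' fun t h1 h2 h3 => absurd ⟨t, h1, h2, h3⟩ hs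
  obtain ⟨s₀, s1, s2, s3⟩ := hs
  have hT : T ∈ Ioc 0 T := ⟨by linarith, le_rfl⟩
  obtain ⟨p, hp⟩ := (pmpT hX hY hT.1 ht hU hqU
    (by simpa using opt 0 T le_rfl hT.1.le le_rfl)).1
  have hz : ∀ t ∈ sw q T, δ₀ / 2 ≤ t → t + δ₀ / 2 ≤ T → p t (X (q t) - Y (q t)) = 0 :=
    fun t h1 h2 h3 => hp.zero_of_not_bang hX.sm hY.sm ht ⟨by linarith, by linarith⟩
      (not_bang_of_sw hX.sm hY.sm ht h1 ⟨by linarith, by linarith⟩)
  have key := H (Smooth.ext hX.sm hY.sm ht hT hp) (fun t h => by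
    obtain ⟨a0, a1, a2, a3⟩ := (hq h).2.1
    have n1 : ‖p t‖ ^ 2 ≤ D * (Smooth.ext hX.sm hY.sm ht hT hp).nn t := a0 (p t)
    have n0 : 0 < (Smooth.ext hX.sm hY.sm ht hT hp).nn t :=
      (mul_pos_iff_of_pos_left hD).1
        ((pow_pos (norm_pos_iff.2 (hp.ne_all hX hY ht t h)) 2).trans_le n1)
    refine ⟨n0, sq_le n1 n0.le a1, sq_le n1 n0.le a2, le_of_eq_of_le ?_ (sq_le n1 n0.le a3)⟩
    rw [map_sub, map_add, map_add, map_smul, map_smul, map_smul, sub_sub, sub_sub, ← add_assoc]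
    rfl) (z_bound (e := Smooth.ext hX.sm hY.sm ht hT hp) ht fun t h => (hq h).2.2)
  refine cover (s₀ := s₀) hd (fun _ h => h.1) hw' fun t h1 h2 h3 => ⟨?_, ?_⟩
  · by_contra h4
    exact key t s₀ h2 (by linarith [not_le.1 h4]) s3 (hz t h1 h2 h3) (hz s₀ s1 s2 s3)
  · exact not_lt.1 fun h4 => key s₀ t s2 h4.le h3 (hz s₀ s1 s2 s3) (hz t h1 h2 h3)

theorem bound66 (hX : SC X) (hY : SC Y) (hg : Good3 X Y q₀) : BoundN 66 X Y q₀ := by
  by_cases h : ∀ c ∈ Icc (0 : ℝ) 1, c • X q₀ + (1 - c) • Y q₀ ≠ 0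
  · exact local0 hX hY hg h
  push Not at h
  obtain ⟨c, hc, h⟩ := h
  rcases hc.1.eq_or_lt with rfl | h0
  · obtain ⟨U', hU', H⟩ := (local2 hY hX (hg.swap hX.sm hY.sm) (by simpa using h)).mono
      (k' := 66) (by norm_num)
    exact ⟨U', hU', fun U hU m q T h1 h2 h3 h4 =>
      H U hU _ q T h1.swap h2 h3 fun s t a b c => (h4 s t a b c).swap⟩
  rcases hc.2.eq_or_lt with rfl | h1
  · exact (local2 hX hY hg (by simpa using h)).mono (by norm_num)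
  · exact (local1 hX hY hg ⟨h0, h1⟩ h).mono (by norm_num)

end Pool.Agent.Lib.MP_f4f7c0_an.K
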